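import Pool.Agent.H527R3.Rpo.Mul
import Pool.Agent.Helper344.DPRM

set_option autoImplicit false

/-!
# Relations defined by finite systems of constraints between words
-/

namespace Pool.Agent.H527R3.Rpo

open List

/-- Constraints between words. -/
inductive WC (V : Type) : Type
  | nil (x : V)
  | cons (b : Bool) (x y : V)
  | sub (x y : V)
  | nsub (b : Bool) (x y : V)

/-- `x = []`, `x = b y`, `x` is a subword of `y`, `x` starts with `b` and is not a subword of `y` -/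
def WC.Sat {V : Type} (v : V → List Bool) : WC V → Prop
  | .nil x => v x = []
  | .cons b x y => v x = b :: v y
  | .sub x y => v x <+ v y
  | .nsub b x y => (∃ t, v x = b :: t) ∧ ¬ v x <+ v y

def WC.map {V V' : Type} (e : V → V') : WC V → WC V'
  | .nil x => .nil (e x)
  | .cons b x y => .cons b (e x) (e y)
  | .sub x y => .sub (e x) (e y)
  | .nsub b x y => .nsub b (e x) (e y)

theorem WC.sat_map {V V' : Type} (e : V → V') (v : V' → List Bool) (c : WC V) :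
    (c.map e).Sat v ↔ c.Sat (v ∘ e) := by
  cases c <;> rfl

/-- definable relations -/
def ED {α : Type} (R : (α → List Bool) → Prop) : Prop :=
  ∃ (β : Type) (L : List (WC (α ⊕ β))), ∀ v, R v ↔ ∃ t : β → List Bool, ∀ c ∈ L, c.Sat (Sum.elim v t)

theorem ED.congr {α : Type} {R R' : (α → List Bool) → Prop} (h : ED R) (hh : ∀ v, R' v ↔ R v) :
    ED R' := by
  obtain ⟨β, L, hL⟩ := h
  exact ⟨β, L, fun v => (hh v).trans (hL v)⟩

theorem ED.and {α : Type} {R R' : (α → List Bool) → Prop} (h : ED R) (h' : ED R') :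
    ED fun v => R v ∧ R' v := by
  obtain ⟨β, L, hL⟩ := h
  obtain ⟨β', L', hL'⟩ := h'
  refine ⟨β ⊕ β', L.map (WC.map (Sum.map id Sum.inl)) ++ L'.map (WC.map (Sum.map id Sum.inr)),
    fun v => ?_⟩
  change (R v ∧ R' v) ↔ _
  rw [hL, hL']
  constructor
  · rintro ⟨⟨t, ht⟩, ⟨t', ht'⟩⟩
    refine ⟨Sum.elim t t', fun c hc => ?_⟩
    rcases List.mem_append.1 hc with hc | hc
    · obtain ⟨c', hc', rfl⟩ := List.mem_map.1 hc
      rw [WC.sat_map]
      have e : Sum.elim v (Sum.elim t t') ∘ Sum.map id Sum.inl = Sum.elim v t := by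
        funext x; cases x <;> rfl
      rw [e]; exact ht c' hc'
    · obtain ⟨c', hc', rfl⟩ := List.mem_map.1 hc
      rw [WC.sat_map]
      have e : Sum.elim v (Sum.elim t t') ∘ Sum.map id Sum.inr = Sum.elim v t' := by
        funext x; cases x <;> rfl
      rw [e]; exact ht' c' hc'
  · rintro ⟨t, ht⟩
    refine ⟨⟨t ∘ Sum.inl, fun c hc => ?_⟩, ⟨t ∘ Sum.inr, fun c hc => ?_⟩⟩
    · have := ht _ (List.mem_append_left _ (List.mem_map.2 ⟨c, hc, rfl⟩))
      rw [WC.sat_map] at this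
      have e : Sum.elim v t ∘ Sum.map id Sum.inl = Sum.elim v (t ∘ Sum.inl) := by
        funext x; cases x <;> rfl
      rwa [e] at this
    · have := ht _ (List.mem_append_right _ (List.mem_map.2 ⟨c, hc, rfl⟩))
      rw [WC.sat_map] at this
      have e : Sum.elim v t ∘ Sum.map id Sum.inr = Sum.elim v (t ∘ Sum.inr) := by
        funext x; cases x <;> rfl
      rwa [e] at this

theorem ED.ex {α γ : Type} {R : (α ⊕ γ → List Bool) → Prop} (h : ED R) :
    ED fun v : α → List Bool => ∃ t : γ → List Bool, R (Sum.elim v t) := by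
  obtain ⟨β, L, hL⟩ := h
  let e : (α ⊕ γ) ⊕ β → α ⊕ (γ ⊕ β) :=
    Sum.elim (Sum.elim Sum.inl (Sum.inr ∘ Sum.inl)) (Sum.inr ∘ Sum.inr)
  refine ⟨γ ⊕ β, L.map (WC.map e), fun v => ?_⟩
  constructor
  · rintro ⟨t, ht⟩
    obtain ⟨u, hu⟩ := (hL _).1 ht
    refine ⟨Sum.elim t u, fun c hc => ?_⟩
    obtain ⟨c', hc', rfl⟩ := List.mem_map.1 hc
    rw [WC.sat_map]
    have he : Sum.elim v (Sum.elim t u) ∘ e = Sum.elim (Sum.elim v t) u := by
      funext x; rcases x with (x | x) | x <;> rfl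
    rw [he]; exact hu c' hc'
  · rintro ⟨u, hu⟩
    refine ⟨u ∘ Sum.inl, (hL _).2 ⟨u ∘ Sum.inr, fun c hc => ?_⟩⟩
    have := hu _ (List.mem_map.2 ⟨c, hc, rfl⟩)
    rw [WC.sat_map] at this
    have he : Sum.elim v u ∘ e = Sum.elim (Sum.elim v (u ∘ Sum.inl)) (u ∘ Sum.inr) := by
      funext x; rcases x with (x | x) | x <;> rfl
    rwa [he] at this

theorem ED.ren {α α' : Type} {R : (α → List Bool) → Prop} (h : ED R) (e : α → α') :
    ED fun v : α' → List Bool => R (v ∘ e) := by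
  obtain ⟨β, L, hL⟩ := h
  refine ⟨β, L.map (WC.map (Sum.map e id)), fun v => ?_⟩
  change R (v ∘ e) ↔ _
  rw [hL]
  refine exists_congr fun t => ?_
  have e' : Sum.elim v t ∘ Sum.map e id = Sum.elim (v ∘ e) t := by
    funext x; cases x <;> rfl
  constructor
  · intro h c hc
    obtain ⟨c', hc', rfl⟩ := List.mem_map.1 hc
    rw [WC.sat_map, e']; exact h c' hc'
  · intro h c hc
    have := h _ (List.mem_map.2 ⟨c, hc, rfl⟩)
    rwa [WC.sat_map, e'] at this

/-! ### The gadgets -/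

/-- constants and `k = A i`, `h = A j`, `m = A (i + j)` -/
theorem ed_add : ED fun v : Fin 3 → List Bool =>
    ∃ i j : ℕ, v 0 = A i ∧ v 1 = A j ∧ v 2 = A (i + j) := by
  let K : Fin 3 ⊕ ℕ := .inl 0
  let H : Fin 3 ⊕ ℕ := .inl 1
  let M : Fin 3 ⊕ ℕ := .inl 2
  let X : ℕ → Fin 3 ⊕ ℕ := fun n => .inr n
  -- 0: [], 1: b, 2: a, 3: ba, 4: bb, 5: aK, 6: p, 7: s, 8: ap, 9: bH, 10: aH, 11: baH, 12: aM
  refine ⟨ℕ, [.nil (X 0), .cons false (X 1) (X 0), .cons true (X 2) (X 0), .cons false (X 3) (X 2),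
    .cons false (X 4) (X 1), .cons true (X 5) K, .nsub false (X 1) K, .nsub false (X 1) H,
    .nsub false (X 3) (X 6), .sub K (X 6), .nsub true (X 5) (X 6), .sub (X 1) (X 6),
    .nsub false (X 4) (X 6), .sub (X 6) (X 7), .cons true (X 8) (X 6), .nsub true (X 8) (X 7),
    .cons false (X 9) H, .sub (X 9) (X 7), .cons true (X 10) H, .cons false (X 11) (X 10),
    .nsub false (X 11) (X 7), .nsub false (X 4) (X 7), .nsub false (X 1) M, .sub M (X 7),
    .cons true (X 12) M, .nsub true (X 12) (X 7)], fun v => ?_⟩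
  simp only [List.forall_mem_cons, WC.Sat, K, H, M, X, Sum.elim_inl, Sum.elim_inr,
    List.not_mem_nil, false_imp_iff, implies_true, and_true]
  constructor
  · rintro ⟨i, j, h0, h1, h2⟩
    obtain ⟨c1, c2, c3, c4, c5, c6, c7, c8, c9, c10, c11, c12, c13⟩ := add_complete i j
    refine ⟨fun n => match n with
      | 0 => []
      | 1 => [false]
      | 2 => [true]
      | 3 => [false, true]
      | 4 => [false, false]
      | 5 => true :: v 0
      | 6 => A i ++ [false]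
      | 7 => A i ++ false :: A j
      | 8 => true :: (A i ++ [false])
      | 9 => false :: v 1
      | 10 => true :: v 1
      | 11 => false :: true :: v 1
      | 12 => true :: v 2
      | _ => [], ?_⟩
    simp only [h0, h1, h2]
    have hA : ∀ m, ¬ ([false] <+ A m) := by
      intro m h
      have := List.singleton_sublist.1 h
      simp at this
    exact ⟨trivial, trivial, trivial, trivial, trivial, trivial, ⟨⟨_, rfl⟩, hA _⟩,
      ⟨⟨_, rfl⟩, hA _⟩, ⟨⟨_, rfl⟩, c1⟩, c2, ⟨⟨_, rfl⟩, c3⟩, c4, ⟨⟨_, rfl⟩, c5⟩, c6, trivial,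
      ⟨⟨_, rfl⟩, c7⟩, trivial, c8, trivial, trivial, ⟨⟨_, rfl⟩, c9⟩, ⟨⟨_, rfl⟩, c10⟩,
      ⟨⟨_, rfl⟩, c11⟩, c12, trivial, ⟨⟨_, rfl⟩, c13⟩⟩
  · rintro ⟨t, h0, h1, h2, h3, h4, h5, h6, h7, h8, h9, h10, h11, h12, h13, h14, h15, h16, h17, h18,
      h19, h20, h21, h22, h23, h24, h25⟩
    rw [h0] at h1 h2
    rw [h2] at h3
    rw [h1] at h4 h6 h7 h11 h22
    rw [h3] at h8
    rw [h4] at h12 h21
    rw [h5] at h10
    rw [h14] at h15
    rw [h16] at h17
    rw [h18] at h19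
    rw [h19] at h20
    rw [h24] at h25
    have e0 := eq_A h6.2
    have e1 := eq_A h7.2
    rw [e0] at h9 h10
    rw [e1] at h17 h20
    exact ⟨(v 0).length, (v 1).length, e0, e1, add_sound h8.2 h9 h10.2 h11 h12.2 h13 h15.2 h17
      h20.2 h21.2 h22.2 h23 h25.2⟩

/-- the constraints of the multiplication gadget -/
def mulL : List (WC (Fin 4 ⊕ ℕ)) :=
  let K : Fin 4 ⊕ ℕ := .inl 0
  let N : Fin 4 ⊕ ℕ := .inl 1
  let H : Fin 4 ⊕ ℕ := .inl 2
  let M : Fin 4 ⊕ ℕ := .inl 3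
  let X : ℕ → Fin 4 ⊕ ℕ := fun n => .inr n
  [.nil (X 0), .cons false (X 1) (X 0), .cons true (X 2) (X 0), .cons false (X 3) (X 2),
    .cons false (X 4) (X 1), .cons false (X 5) (X 4), .nsub false (X 1) K, .nsub true (X 2) N,
    .cons true (X 7) H, .cons false (X 8) N, .cons false (X 9) (X 8), .cons false (X 10) (X 6),
    .cons true (X 12) M, .cons true (X 14) K, .cons true (X 18) (X 4), .cons true (X 19) (X 3),
    .cons true (X 20) (X 1), .cons false N (X 21),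
    .sub H (X 6), .nsub true (X 7) (X 6), .sub N (X 6), .nsub false (X 8) (X 6),
    .sub (X 10) (X 11), .sub (X 8) (X 11), .nsub false (X 9) (X 11), .sub M (X 11),
    .nsub true (X 12) (X 11),
    .nsub false (X 3) (X 13), .sub K (X 13), .nsub true (X 14) (X 13), .sub (X 8) (X 13),
    .nsub false (X 9) (X 13), .sub (X 13) (X 11),
    .sub (X 6) (X 15), .sub H (X 15), .nsub true (X 7) (X 15), .sub (X 8) (X 15),
    .nsub false (X 9) (X 15), .sub (X 15) (X 11),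
    .nsub false (X 3) (X 16), .sub H (X 16), .nsub true (X 7) (X 16), .sub (X 4) (X 16),
    .nsub false (X 5) (X 16), .sub (X 16) (X 15), .nsub true (X 16) (X 6),
    .sub K (X 17), .nsub true (X 14) (X 17), .sub N (X 17), .nsub false (X 8) (X 17),
    .nsub true (X 18) (X 17), .nsub true (X 19) (X 17), .sub (X 20) (X 17), .sub (X 17) (X 6)]

theorem ed_mul : ED fun v : Fin 3 → List Bool =>
    ∃ k n : ℕ, v 0 = A (k + 1) ∧ v 1 = B (n + 1) ∧ v 2 = A ((n + 1) * (k + 1)) := by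
  have h1 : ED fun v : Fin 4 → List Bool => ∃ t : ℕ → List Bool, ∀ c ∈ mulL,
      c.Sat (Sum.elim v t) := ⟨ℕ, mulL, fun v => Iff.rfl⟩
  have h2 := (h1.and (ed_add.ren ![0, 2, 3])).ren
    (![Sum.inl 0, Sum.inl 1, Sum.inl 2, Sum.inr ()] : Fin 4 → Fin 3 ⊕ Unit)
  refine h2.ex.congr fun v => ?_
  simp only [mulL, List.forall_mem_cons, WC.Sat, Sum.elim_inl, Sum.elim_inr,
    List.not_mem_nil, false_imp_iff, implies_true, and_true, Function.comp_apply,
    Matrix.cons_val_zero, Matrix.cons_val_one, Matrix.cons_val]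
  constructor
  · rintro ⟨k, n, h0, h1, h2⟩
    refine ⟨fun _ => A ((k + 1) + (n + 1) * (k + 1)), ⟨fun i => match i with
      | 0 => []
      | 1 => [false]
      | 2 => [true]
      | 3 => [false, true]
      | 4 => [false, false]
      | 5 => [false, false, false]
      | 6 => enc (replicate (n + 1) (k + 1)) 0
      | 7 => true :: v 2
      | 8 => false :: v 1
      | 9 => false :: false :: v 1
      | 10 => false :: enc (replicate (n + 1) (k + 1)) 0
      | 11 => enc (replicate (n + 2) (k + 1)) 0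
      | 12 => true :: A ((k + 1) + (n + 1) * (k + 1))
      | 13 => A (k + 1) ++ B (n + 2)
      | 14 => true :: v 0
      | 15 => enc (replicate (n + 1) (k + 1)) 0 ++ [false]
      | 16 => A ((n + 1) * (k + 1)) ++ B 2
      | 17 => enc (replicate n 0 ++ [k + 1]) 0
      | 18 => [true, false, false]
      | 19 => [true, false, true]
      | 20 => [true, false]
      | 21 => B n
      | _ => [], ?_⟩, ?_⟩
    · obtain ⟨⟨z1, z2, z3, z4⟩, ⟨w1, w2, w3, w4, w5⟩, ⟨P1, P2, P3, P4, P5, P6⟩,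
        ⟨y1, y2, y3, y4, y5, y6⟩, ⟨T1, T2, T3, T4, T5, T6, T7, T8⟩,
        ⟨q1, q2, q3, q4, q5, q6, q7, q8⟩⟩ :=
        mul_complete k n _ rfl rfl rfl rfl rfl rfl rfl
      simp only [h0, h1, h2]
      have hA : ∀ m, ¬ ([false] <+ A m) := by
        intro m h
        have := List.singleton_sublist.1 h
        simp at this
      have hB : ∀ m, ¬ ([true] <+ B m) := by
        intro m h
        have := List.singleton_sublist.1 h
        simp at this
      exact ⟨trivial, trivial, trivial, trivial, trivial, trivial, ⟨⟨_, rfl⟩, hA _⟩,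
        ⟨⟨_, rfl⟩, hB _⟩, trivial, trivial, trivial, trivial, trivial, trivial, trivial, trivial,
        trivial, rfl, z1, ⟨⟨_, rfl⟩, z2⟩, z3, ⟨⟨_, rfl⟩, z4⟩, w1, w2, ⟨⟨_, rfl⟩, w3⟩, w4,
        ⟨⟨_, rfl⟩, w5⟩, ⟨⟨_, rfl⟩, P1⟩, P2, ⟨⟨_, rfl⟩, P3⟩, P4, ⟨⟨_, rfl⟩, P5⟩, P6,
        y1, y2, ⟨⟨_, rfl⟩, y3⟩, y4, ⟨⟨_, rfl⟩, y5⟩, y6, ⟨⟨_, rfl⟩, T1⟩, T2, ⟨⟨_, rfl⟩, T3⟩, T4,
        ⟨⟨_, rfl⟩, T5⟩, T6, ⟨T8, T7⟩, q1, ⟨⟨_, rfl⟩, q2⟩, q3, ⟨⟨_, rfl⟩, q4⟩, ⟨⟨_, rfl⟩, q5⟩,
        ⟨⟨_, rfl⟩, q6⟩, q7, q8⟩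
    · exact ⟨_, _, h0, h2, rfl⟩
  · rintro ⟨u, ⟨t, g0, g1, g2, g3, g4, g5, gK, gN, g7, g8, g9, g10, g12, g14, g18, g19, g20, g21,
      z1, z2, z3, z4, w1, w2, w3, w4, w5, P1, P2, P3, P4, P5, P6, y1, y2, y3, y4, y5, y6,
      T1, T2, T3, T4, T5, T6, T7, q1, q2, q3, q4, q5, q6, q7, q8⟩, ⟨i, j, e0, e2, e3⟩⟩
    rw [g0] at g1 g2
    rw [g2] at g3 gN
    rw [g1] at g4 gK g20
    rw [g4] at g5 g18 T4
    rw [g3] at g19 P1 T1
    rw [g5] at T5
    have e1 := eq_B gN.2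
    rw [g8] at g9 z4 w2 P4 y4 q4
    rw [g9] at w3 P5 y5
    rw [g7] at z2 y3 T3
    rw [g10] at w1
    rw [g12] at w5
    rw [g14] at P3 q2
    rw [g18] at q5
    rw [g19] at q6
    rw [g20] at q7
    rw [e0] at P2 P3 q1 q2
    rw [e2] at z1 z2 y2 y3 T2 T3
    rw [e3] at w4 w5
    obtain ⟨n, hn⟩ : ∃ n, (v 1).length = n + 1 := ⟨(t 21).length, by rw [g21]; rfl⟩
    rw [hn] at e1
    rw [e1] at z3 z4 w2 w3 P4 P5 y4 y5 q3 q4
    have hN := mul_sound z1 z2.2 z3 z4.2 w1 w2 w3.2 w4 w5.2 P1.2 P2 P3.2 P4 P5.2 P6 y1 y2 y3.2 y4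
      y5.2 y6 T1.2 T2 T3.2 T4 T5.2 T6 T7.2 q1 q2.2 q3 q4.2 q5.2 q6.2 q7 q8
    obtain ⟨k, hk⟩ : ∃ k, i = k + 1 := by
      cases i with
      | succ k => exact ⟨k, rfl⟩
      | zero =>
        exfalso
        have hj : j = 0 := by rw [hN]; simp
        subst hj
        obtain ⟨t', ht'⟩ := T7.1
        have h3 := eq_AB T1.2
        have h4 : (t 16).count true = 0 := count_eq T2 T3.2
        rw [ht'] at h4
        simp at h4
    subst hk
    exact ⟨k, n, e0, e1, by rw [e2, hN]⟩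

end Pool.Agent.H527R3.Rpo
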