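import Mathlib

set_option autoImplicit false

/-!
# The recursive path ordering with status over a partial precedence, and systems of constraints
-/

namespace Pool.Agent.H527R3.Rpo

/-- Ground terms over the symbols `F` with arities `ar`. -/
inductive Tm {F : Type} (ar : F → ℕ) : Type
  | mk (f : F) (t : Fin (ar f) → Tm ar) : Tm ar

/-- The congruence generated by permuting the arguments of the symbols with multiset status
(`st f = true`: lexicographic status, `st f = false`: multiset status). -/
inductive Eqv {F : Type} {ar : F → ℕ} (st : F → Bool) : Tm ar → Tm ar → Prop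
  | mk (f : F) (s t : Fin (ar f) → Tm ar) (σ : Equiv.Perm (Fin (ar f)))
      (hσ : st f = true → σ = 1) (h : ∀ i, Eqv st (s i) (t (σ i))) : Eqv st (.mk f s) (.mk f t)

/-- The recursive path ordering: `s > t`.  `prec f g` says that `f` is greater than `g` in the
precedence.  Clauses: an argument of `s` is equivalent to `t`; an argument of `s` is greater than
`t`; precedence; lexicographic status; multiset status (after removing the arguments outside `A`,
which are matched with equivalent arguments of `t`, each remaining argument of `t` is below one of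
the remaining arguments of `s`). -/
inductive Gt {F : Type} {ar : F → ℕ} (prec : F → F → Prop) (st : F → Bool) :
    Tm ar → Tm ar → Prop
  | eqv (f : F) (s : Fin (ar f) → Tm ar) (t : Tm ar) (i : Fin (ar f)) (h : Eqv st (s i) t) :
      Gt prec st (.mk f s) t
  | sub (f : F) (s : Fin (ar f) → Tm ar) (t : Tm ar) (i : Fin (ar f)) (h : Gt prec st (s i) t) :
      Gt prec st (.mk f s) t
  | prec (f g : F) (s : Fin (ar f) → Tm ar) (t : Fin (ar g) → Tm ar) (h : prec f g)
      (h' : ∀ j, Gt prec st (.mk f s) (t j)) : Gt prec st (.mk f s) (.mk g t)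
  | lex (f : F) (s t : Fin (ar f) → Tm ar) (hf : st f = true)
      (h' : ∀ j, Gt prec st (.mk f s) (t j)) (i : Fin (ar f))
      (h1 : ∀ j, j < i → Eqv st (s j) (t j)) (h2 : Gt prec st (s i) (t i)) :
      Gt prec st (.mk f s) (.mk f t)
  | mul (f : F) (s t : Fin (ar f) → Tm ar) (hf : st f = false)
      (h' : ∀ j, Gt prec st (.mk f s) (t j)) (σ : Equiv.Perm (Fin (ar f)))
      (A : Finset (Fin (ar f))) (hA : A.Nonempty) (κ : Fin (ar f) → Fin (ar f))
      (h1 : ∀ i, i ∉ A → Eqv st (s i) (t (σ i))) (h2 : ∀ i, i ∈ A → κ i ∈ A)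
      (h3 : ∀ i, i ∈ A → Gt prec st (s (κ i)) (t (σ i))) : Gt prec st (.mk f s) (.mk f t)

/-- Literals between variables: `inl (h, x, [y₁, …, y_m])` is the equation
`x = h(y₁, …, y_m)`; `inr (true, x, y)` is `x > y`; `inr (false, x, y)` is `¬ x > y`. -/
abbrev Con (F V : Type) : Type := (F × V × List V) ⊕ (Bool × V × V)

/-- The literal holds in the algebra of ground terms under the assignment `w`. -/
def Sat {F V : Type} {ar : F → ℕ} (prec : F → F → Prop) (st : F → Bool) (w : V → Tm ar) :
    Con F V → Prop
  | .inl (h, x, l) => ∃ t : Fin (ar h) → Tm ar, w x = .mk h t ∧ l.map w = List.ofFn t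
  | .inr (true, x, y) => Gt prec st (w x) (w y)
  | .inr (false, x, y) => ¬ Gt prec st (w x) (w y)

end Pool.Agent.H527R3.Rpo
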