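import Pool.Agent.H527R3.Rpo.Trans

set_option autoImplicit false

/-!
# Undecidability of the existential theory of the recursive path ordering
-/

namespace Pool.Agent.H527R3.Rpo

open scoped List

variable {F : Type} {ar : F → ℕ} {prec : F → F → Prop} {st : F → Bool} {c f g : F}

/-- renaming of the variables -/
def Con.ren {V V' : Type} (e : V → V') : Con F V → Con F V'
  | .inl (h, x, l) => .inl (h, e x, l.map e)
  | .inr (b, x, y) => .inr (b, e x, e y)

theorem sat_ren {V V' : Type} (e : V → V') (w : V' → Tm ar) (d : Con F V) :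
    Sat prec st w (d.ren e) ↔ Sat prec st (w ∘ e) d := by
  rcases d with ⟨h, x, l⟩ | ⟨b, x, y⟩
  · unfold Con.ren Sat
    simp only [List.map_map, Function.comp_apply]
  · cases b <;> rfl

/-- the variables of a literal -/
def Con.vars {V : Type} : Con F V → List V
  | .inl (_, x, l) => x :: l
  | .inr (_, x, y) => [x, y]

theorem sat_congr {V : Type} {w w' : V → Tm ar} {d : Con F V} (h : ∀ x ∈ d.vars, w x = w' x) :
    Sat prec st w d ↔ Sat prec st w' d := by
  rcases d with ⟨k, x, l⟩ | ⟨b, x, y⟩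
  · have h1 : w x = w' x := h x (by simp [Con.vars])
    have h2 : l.map w = l.map w' := List.map_congr_left fun y hy => h y (by
      unfold Con.vars
      exact List.mem_cons_of_mem _ hy)
    change (∃ t : Fin (ar k) → Tm ar, w x = .mk k t ∧ l.map w = List.ofFn t) ↔
      ∃ t : Fin (ar k) → Tm ar, w' x = .mk k t ∧ l.map w' = List.ofFn t
    rw [h1, h2]
  · have h1 : w x = w' x := h x (by simp [Con.vars])
    have h2 : w y = w' y := h y (by simp [Con.vars])
    cases b
    · change ¬ Gt prec st _ _ ↔ ¬ Gt prec st _ _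
      rw [h1, h2]
    · change Gt prec st _ _ ↔ Gt prec st _ _
      rw [h1, h2]

/-- the `n`-th system -/
def fam {N : ℕ} (ar : Fin N → ℕ) (c f : Fin N) (D : List (Con (Fin N) ℕ)) (m n : ℕ) :
    List (Con (Fin N) ℕ) :=
  D ++ (.inl (c, 1, []) :: .inl (f, m, ul ar f 1 (2 * n + 1)) ::
    (List.range n).map fun k => .inl (f, 2 * k + 3, ul ar f 1 (2 * k + 1)))

theorem fam_primrec {N : ℕ} (ar : Fin N → ℕ) (c f : Fin N) (D : List (Con (Fin N) ℕ)) (m : ℕ) :
    Primrec (fam ar c f D m) := by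
  have h0 : ∀ a : ℕ, Primrec fun n : ℕ => 2 * n + a := fun a =>
    Primrec.nat_add.comp (Primrec.nat_mul.comp (Primrec.const 2) Primrec.id) (Primrec.const a)
  have hu : Primrec fun n : ℕ => (ul ar f 1 (2 * n + 1) : List ℕ) := by
    unfold ul
    refine Primrec.list_ofFn (f := fun (i : Fin (ar f)) (n : ℕ) =>
      if (i : ℕ) + 1 = ar f then 2 * n + 1 else 1) fun i => ?_
    by_cases hi : (i : ℕ) + 1 = ar f
    · simp only [hi, if_true]
      exact h0 1
    · simp only [hi, if_false]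
      exact Primrec.const 1
  have h1 : Primrec₂ (fun (_ : ℕ) (k : ℕ) => (Sum.inl (f, 2 * k + 3, ul ar f 1 (2 * k + 1)) :
      Con (Fin N) ℕ)) :=
    Primrec.sumInl.comp (Primrec.pair (Primrec.const f) (Primrec.pair
      ((h0 3).comp Primrec.snd) (hu.comp Primrec.snd)))
  have h2 : Primrec (fun n : ℕ => (List.range n).map
      (fun k => (Sum.inl (f, 2 * k + 3, ul ar f 1 (2 * k + 1)) : Con (Fin N) ℕ))) :=
    Primrec.list_map Primrec.list_range h1
  have h3 : Primrec (fun n : ℕ => (Sum.inl (f, m, ul ar f 1 (2 * n + 1)) : Con (Fin N) ℕ)) :=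
    Primrec.sumInl.comp (Primrec.pair (Primrec.const f) (Primrec.pair (Primrec.const m) hu))
  exact Primrec.list_append.comp (Primrec.const D)
    (Primrec.list_cons.comp (Primrec.const (Sum.inl (c, 1, []) : Con (Fin N) ℕ))
      (Primrec.list_cons.comp h3 h2))

theorem fam_iff {N : ℕ} {ar : Fin N → ℕ} {prec : Fin N → Fin N → Prop} {st : Fin N → Bool}
    {c f g : Fin N} (H : Hyp ar prec st c f g) {D : List (Con (Fin N) ℕ)} {m : ℕ}
    (hm : m % 2 = 0) (hD : ∀ d ∈ D, ∀ x ∈ Con.vars d, x % 2 = 0) (n : ℕ) :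
    (∃ w : ℕ → Tm ar, ∀ d ∈ fam ar c f D m n, Sat prec st w d) ↔
      ∃ w : ℕ → Tm ar, w m = W H (A (n + 1)) ∧ ∀ d ∈ D, Sat prec st w d := by
  have key : ∀ w : ℕ → Tm ar, (∀ d ∈ fam ar c f D m n, Sat prec st w d) ↔
      (∀ d ∈ D, Sat prec st w d) ∧ w 1 = cst c H.hc ∧ w m = U (w 1) f (w (2 * n + 1)) ∧
      ∀ k < n, w (2 * k + 3) = U (w 1) f (w (2 * k + 1)) := by
    intro w
    unfold fam
    rw [List.forall_mem_append, List.forall_mem_cons, List.forall_mem_cons, List.forall_mem_map,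
      sat_c H.hc, sat_u]
    refine and_congr Iff.rfl (and_congr Iff.rfl (and_congr Iff.rfl ?_))
    constructor
    · intro h k hk
      exact sat_u.1 (h k (List.mem_range.2 hk))
    · intro h k hk
      exact sat_u.2 (h k (List.mem_range.1 hk))
  constructor
  · rintro ⟨w, hw⟩
    obtain ⟨h1, h2, h3, h4⟩ := (key w).1 hw
    have h5 : ∀ k ≤ n, w (2 * k + 1) = W H (A k) := by
      intro k
      induction k with
      | zero => exact fun _ => h2
      | succ k ih =>
        intro hk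
        have h6 := h4 k (by omega)
        rw [ih (by omega), h2] at h6
        exact h6
    refine ⟨w, ?_, h1⟩
    rw [h3, h2, h5 n le_rfl]
    rfl
  · rintro ⟨w, h1, h2⟩
    obtain ⟨w', hw⟩ : ∃ w' : ℕ → Tm ar, w' = fun i => if i % 2 = 0 then w i else
      W H (A (i / 2)) := ⟨_, rfl⟩
    have he : ∀ i, i % 2 = 0 → w' i = w i := by
      intro i hi
      rw [hw]
      exact if_pos hi
    have ho : ∀ k, w' (2 * k + 1) = W H (A k) := by
      intro k
      rw [hw]
      have e1 : ¬ (2 * k + 1) % 2 = 0 := by omega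
      have e2 : (2 * k + 1) / 2 = k := by omega
      simp only [e1, if_false, e2]
    have h0 : w' 1 = cst c H.hc := ho 0
    refine ⟨w', (key w').2 ⟨fun d hd => ?_, h0, ?_, fun k hk => ?_⟩⟩
    · rw [sat_congr fun x hx => he x (hD d hd x hx)]
      exact h2 d hd
    · rw [he m hm, h1, h0, ho]
      rfl
    · rw [h0, ho, show 2 * k + 3 = 2 * (k + 1) + 1 by ring, ho]
      rfl

theorem exists_idx {T : Type} (ws : List T) (y0 : T) :
    ∃ e : T → ℕ, ∀ x ∈ ws, ws.getD (e x) y0 = x := by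
  classical
  have : ∀ x, ∃ i, x ∈ ws → ws.getD i y0 = x := by
    intro x
    by_cases hx : x ∈ ws
    · obtain ⟨i, hi, h⟩ := List.mem_iff_getElem.1 hx
      exact ⟨i, fun _ => by rw [List.getD_eq_getElem _ _ hi, h]⟩
    · exact ⟨0, fun h => absurd h hx⟩
  choose e he using this
  exact ⟨e, he⟩

theorem undecidable {N : ℕ} {ar : Fin N → ℕ} {prec : Fin N → Fin N → Prop} {st : Fin N → Bool}
    {c f g : Fin N} (H : Hyp ar prec st c f g) :
    ¬ ComputablePred fun L : List (Con (Fin N) ℕ) =>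
      ∃ w : ℕ → Tm ar, ∀ d ∈ L, Sat prec st w d := by
  classical
  intro h
  obtain ⟨p, hp⟩ : ∃ p : ℕ → Prop, p = fun n =>
    (Nat.Partrec.Code.eval (Denumerable.ofNat Nat.Partrec.Code n) 0).Dom := ⟨_, rfl⟩
  have hre : REPred p := by
    rw [hp]
    exact (Nat.Partrec.Code.eval_part.comp (Primrec.ofNat Nat.Partrec.Code).to_comp
      (Computable.const 0)).dom_re
  obtain ⟨R, ⟨β, L, hL⟩, hR⟩ := re_ed hre
  let x0 : Unit ⊕ β := .inl ()
  let vs : List (Unit ⊕ β) := x0 :: L.flatMap WC.vars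
  let fs : List (Fin N) := (Finset.univ.filter fun h => h ≠ c ∧ h ≠ f ∧ h ≠ g).toList
  have hfs : ∀ h, h ∈ fs ↔ h ≠ c ∧ h ≠ f ∧ h ≠ g := by
    intro h
    simp [fs]
  let L' : List (Con (Fin N) (TV (Fin N) (Unit ⊕ β))) := sys ar c f g fs vs L
  let y0 : TV (Fin N) (Unit ⊕ β) := .inl (x0, 0)
  let ws : List (TV (Fin N) (Unit ⊕ β)) := y0 :: L'.flatMap Con.vars
  obtain ⟨e1, he1⟩ := exists_idx ws y0
  let e : TV (Fin N) (Unit ⊕ β) → ℕ := fun x => 2 * e1 x
  have hy0 : y0 ∈ ws := List.mem_cons_self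
  have hws : ∀ d ∈ L', ∀ x ∈ Con.vars d, x ∈ ws := fun d hd x hx =>
    List.mem_cons_of_mem _ (List.mem_flatMap.2 ⟨d, hd, hx⟩)
  have hvars : ∀ d ∈ L'.map (Con.ren e), ∀ x ∈ Con.vars d, x % 2 = 0 := by
    intro d hd x hx
    obtain ⟨d', -, rfl⟩ := List.mem_map.1 hd
    have h1 : Con.vars (Con.ren e d') = (Con.vars d').map e := by
      rcases d' with ⟨k, x, l⟩ | ⟨b, x, y⟩ <;> rfl
    rw [h1] at hx
    obtain ⟨y, -, rfl⟩ := List.mem_map.1 hx
    change (2 * e1 y) % 2 = 0
    omega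
  have key : ∀ n, (∃ w : ℕ → Tm ar, ∀ d ∈ fam ar c f (L'.map (Con.ren e)) (e y0) n,
      Sat prec st w d) ↔ p n := by
    intro n
    rw [fam_iff H (by change (2 * e1 y0) % 2 = 0; omega) hvars n, ← hR n, hL]
    have h1 : (∃ t : β → List Bool, ∀ c ∈ L, c.Sat (Sum.elim (fun _ => A (n + 1)) t)) ↔
        ∃ v : Unit ⊕ β → List Bool, v x0 = A (n + 1) ∧ ∀ k ∈ L, k.Sat v := by
      constructor
      · rintro ⟨t, ht⟩
        exact ⟨Sum.elim (fun _ => A (n + 1)) t, rfl, ht⟩
      · rintro ⟨v, h1, h2⟩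
        refine ⟨v ∘ Sum.inr, ?_⟩
        have h3 : Sum.elim (fun _ => A (n + 1)) (v ∘ Sum.inr) = v := by
          funext x
          rcases x with x | x
          · exact h1.symm
          · rfl
        rw [h3]
        exact h2
    rw [h1, sys_iff H hfs (fun k hk x hx => List.mem_cons_of_mem _
      (List.mem_flatMap.2 ⟨k, hk, hx⟩)) (List.mem_cons_self : x0 ∈ vs) (A (n + 1))]
    constructor
    · rintro ⟨w, h2, h3⟩
      refine ⟨w ∘ e, h2, fun d hd => ?_⟩
      rw [← sat_ren]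
      exact h3 _ (List.mem_map.2 ⟨d, hd, rfl⟩)
    · rintro ⟨w, h2, h3⟩
      obtain ⟨w', hw'⟩ : ∃ w' : ℕ → Tm ar, w' = fun i => w (ws.getD (i / 2) y0) := ⟨_, rfl⟩
      have h4 : ∀ x ∈ ws, (w' ∘ e) x = w x := by
        intro x hx
        rw [hw']
        change w (ws.getD ((2 * e1 x) / 2) y0) = w x
        rw [Nat.mul_div_cancel_left _ (by norm_num), he1 x hx]
      refine ⟨w', (h4 y0 hy0).trans h2, fun d hd => ?_⟩
      obtain ⟨d', hd', rfl⟩ := List.mem_map.1 hd
      rw [sat_ren, sat_congr fun x hx => h4 x (hws d' hd' x hx)]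
      exact h3 d' hd'
  obtain ⟨inst, hc⟩ := h
  have h1 : ComputablePred (fun n => ∃ w : ℕ → Tm ar,
      ∀ d ∈ fam ar c f (L'.map (Con.ren e)) (e y0) n, Sat prec st w d) :=
    ⟨fun n => inst (fam ar c f (L'.map (Con.ren e)) (e y0) n),
      hc.comp (fam_primrec ar c f _ _).to_comp⟩
  have h2 : ComputablePred p := h1.of_eq key
  obtain ⟨inst2, hc2⟩ := h2
  have h3 : ComputablePred (fun c : Nat.Partrec.Code => p (Encodable.encode c)) :=
    ⟨fun c => inst2 (Encodable.encode c), hc2.comp Computable.encode⟩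
  apply ComputablePred.halting_problem 0
  apply h3.of_eq
  intro c
  rw [hp]
  show (Nat.Partrec.Code.eval (Denumerable.ofNat Nat.Partrec.Code (Encodable.encode c)) 0).Dom ↔ _
  rw [Denumerable.ofNat_encode]

end Pool.Agent.H527R3.Rpo
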