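import Pool.Agent.H527R3.Rpo.Words

set_option autoImplicit false

/-!
# Addition and multiplication of lengths through the subword order
-/

namespace Pool.Agent.H527R3.Rpo

open List

theorem count_eq {c : Bool} {i : ℕ} {x : List Bool} (h1 : List.replicate i c <+ x)
    (h2 : ¬ (c :: List.replicate i c) <+ x) : x.count c = i := by
  rw [List.replicate_sublist_iff] at h1
  have h2' : ¬ (List.replicate (i + 1) c <+ x) := h2
  rw [List.replicate_sublist_iff] at h2'
  omega

theorem count_eq' {c : Bool} {i : ℕ} {x : List Bool} (h : x.count c = i) :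
    List.replicate i c <+ x ∧ ¬ (c :: List.replicate i c) <+ x := by
  refine ⟨List.replicate_sublist_iff.2 h.ge, fun h2 => ?_⟩
  have h2' : List.replicate (i + 1) c <+ x := h2
  rw [List.replicate_sublist_iff] at h2'
  omega

theorem sub_enc1 {i i' j j' : ℕ} : (enc [i] j <+ enc [i'] j') ↔ i ≤ i' ∧ j ≤ j' := by
  rw [sub_enc (l := [i]) (l' := [i']) rfl]
  simp

theorem add_sound {i j : ℕ} {p s μ : List Bool} (hp1 : ¬ [false, true] <+ p) (hp2 : A i <+ p)
    (hp3 : ¬ (true :: A i) <+ p) (hp4 : [false] <+ p) (hp5 : ¬ [false, false] <+ p)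
    (hs1 : p <+ s) (hs2 : ¬ (true :: p) <+ s) (hs3 : (false :: A j) <+ s)
    (hs4 : ¬ (false :: true :: A j) <+ s) (hs5 : ¬ [false, false] <+ s)
    (hm0 : ¬ [false] <+ μ) (hm1 : μ <+ s) (hm2 : ¬ (true :: μ) <+ s) : μ = A (i + j) := by
  have e1 : p.count true = i := count_eq hp2 hp3
  have e2 : p.count false = 1 := count_eq (i := 1) hp4 hp5
  have e3 : p = enc [i] 0 := by
    rw [eq_AB hp1, e1, e2]; rfl
  obtain ⟨l, r, rfl⟩ := exists_enc s
  have e4 : (enc l r).count false = 1 :=
    count_eq (i := 1) (((List.cons_sublist_cons.2 (List.nil_sublist _))).trans hs3) hs5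
  rw [count_false_enc] at e4
  obtain ⟨x, rfl⟩ := List.length_eq_one_iff.1 e4
  rw [e3] at hs1 hs2
  have h1 := sub_enc1.1 hs1
  have h2 : ¬ (enc [i + 1] 0 <+ enc [x] r) := hs2
  rw [sub_enc1] at h2
  have h3 : enc [0] j <+ enc [x] r := hs3
  rw [sub_enc1] at h3
  have h4 : ¬ (enc [0] (j + 1) <+ enc [x] r) := hs4
  rw [sub_enc1] at h4
  have e5 : μ = A μ.length := eq_A hm0
  have e6 : (enc [x] r).count true = μ.length := by
    refine count_eq ?_ ?_
    · have : A μ.length <+ enc [x] r := by rw [← e5]; exact hm1
      exact this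
    · have : (true :: A μ.length) = true :: μ := by rw [← e5]
      rw [this]; exact hm2
  rw [count_true_enc] at e6
  simp only [List.sum_cons, List.sum_nil, add_zero] at e6
  rw [e5]
  congr 1
  omega

theorem add_complete (i j : ℕ) :
    (¬ [false, true] <+ (A i ++ [false])) ∧ A i <+ (A i ++ [false]) ∧
    (¬ (true :: A i) <+ (A i ++ [false])) ∧ [false] <+ (A i ++ [false]) ∧
    (¬ [false, false] <+ (A i ++ [false])) ∧
    (A i ++ [false]) <+ (A i ++ false :: A j) ∧
    (¬ (true :: (A i ++ [false])) <+ (A i ++ false :: A j)) ∧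
    (false :: A j) <+ (A i ++ false :: A j) ∧
    (¬ (false :: true :: A j) <+ (A i ++ false :: A j)) ∧
    (¬ [false, false] <+ (A i ++ false :: A j)) ∧
    (¬ [false] <+ A (i + j)) ∧ A (i + j) <+ (A i ++ false :: A j) ∧
    (¬ (true :: A (i + j)) <+ (A i ++ false :: A j)) := by
  have c1 : (A i ++ [false]).count true = i := by simp [List.count_append]
  have c2 : (A i ++ [false]).count false = 1 := by simp [List.count_append, List.count_replicate]
  have c3 : (A i ++ false :: A j).count true = i + j := by simp [List.count_append]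
  have c4 : (A i ++ false :: A j).count false = 1 := by
    simp [List.count_append, List.count_replicate]
  refine ⟨not_BA_AB i 1, (count_eq' c1).1, (count_eq' c1).2, (count_eq' (i := 1) c2).1,
    (count_eq' (i := 1) c2).2, ?_, ?_, ?_, ?_, (count_eq' (i := 1) c4).2, ?_, (count_eq' c3).1,
    (count_eq' c3).2⟩
  · exact (List.append_sublist_append_left _).2 (List.cons_sublist_cons.2 (List.nil_sublist _))
  · intro h
    have h2 : enc [i + 1] 0 <+ enc [i] j := h
    rw [sub_enc1] at h2
    omega
  · exact List.sublist_append_right _ _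
  · intro h
    have h2 : enc [0] (j + 1) <+ enc [i] j := h
    rw [sub_enc1] at h2
    omega
  · intro h
    have := List.singleton_sublist.1 h
    simp at this

theorem forall₂_sum_le {l l' : List ℕ} (h : List.Forall₂ (· ≤ ·) l l') : l.sum ≤ l'.sum := by
  induction h with
  | nil => simp
  | cons h _ ih => simp only [List.sum_cons]; omega

theorem forall₂_eq {l l' : List ℕ} (h : List.Forall₂ (· ≤ ·) l l') (hs : l'.sum ≤ l.sum) :
    l = l' := by
  induction h with
  | nil => rfl
  | cons h h' ih =>
    have := forall₂_sum_le h'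
    simp only [List.sum_cons] at hs
    rw [ih (by omega)]
    congr 1
    omega

/-- words whose last letters are `b` after all letters `a` -/
theorem tail {N j : ℕ} {y : List Bool} (h : (A N ++ B j) <+ y) (hc : y.count true = N) :
    ∃ y0, y = y0 ++ B j := by
  rw [List.append_sublist_iff] at h
  obtain ⟨r1, r2, rfl, h1, h2⟩ := h
  rw [A_sub] at h1
  rw [B_sub] at h2
  rw [List.count_append] at hc
  have h3 : ¬ ([true] <+ r2) := by
    intro h
    have := h.count_le true
    simp only [List.count_cons_self, List.count_nil] at this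
    omega
  have h4 := eq_B h3
  have h5 : r2.count false = r2.length := by
    conv_lhs => rw [h4]
    simp
  refine ⟨r1 ++ B (r2.length - j), ?_⟩
  rw [List.append_assoc]
  congr 1
  conv_lhs => rw [h4]
  rw [← List.replicate_add]
  congr 1
  omega

theorem sub_append_singleton {z y : List Bool} {b : Bool} (h : z <+ y ++ [b]) :
    z <+ y ∨ ∃ z', z = z' ++ [b] ∧ z' <+ y := by
  rw [List.sublist_append_iff] at h
  obtain ⟨l1, l2, rfl, h1, h2⟩ := h
  rcases l2 with _ | ⟨c, l2⟩
  · left; simpa using h1
  · right
    have h3 : l2 = [] ∧ c = b := by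
      have := h2.length_le
      simp only [List.length_cons, List.length_nil] at this
      have h4 : l2 = [] := List.eq_nil_of_length_eq_zero (by omega)
      subst h4
      refine ⟨rfl, ?_⟩
      have h5 := List.singleton_sublist.1 h2
      simpa using h5
    obtain ⟨rfl, rfl⟩ := h3
    exact ⟨l1, rfl, h1⟩

theorem last_of_forall₂ {u l : List ℕ} {k : ℕ} (h : List.Forall₂ (· ≤ ·) (u ++ [k]) l) :
    ∃ l1 x, l = l1 ++ [x] ∧ k ≤ x := by
  induction u generalizing l with
  | nil =>
    cases h with
    | cons h1 h2 =>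
      cases h2
      exact ⟨[], _, rfl, h1⟩
  | cons a u ih =>
    cases h with
    | cons h1 h2 =>
      obtain ⟨l1, x, rfl, hx⟩ := ih h2
      exact ⟨_ :: l1, x, rfl, hx⟩

theorem chain (k x r : ℕ) (hk : k ≤ x) : ∀ (l1 : List ℕ) (K : ℕ),
    List.Forall₂ (· ≤ ·) ((l1 ++ [x]) ++ [r]) (K :: (l1 ++ [x])) →
    ∀ t ∈ l1 ++ [x], k ≤ t ∧ t ≤ K := by
  intro l1
  induction l1 with
  | nil =>
    intro K h t ht
    simp only [List.nil_append, List.mem_singleton] at ht
    subst ht
    cases h with
    | cons h1 _ => exact ⟨hk, h1⟩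
  | cons y l1 ih =>
    intro K h t ht
    cases h with
    | cons h1 h2 =>
      have h3 := ih y h2
      have h4 := h3 x (by simp)
      rcases List.mem_cons.1 ht with rfl | ht
      · exact ⟨h4.1.trans h4.2, h1⟩
      · have := h3 t ht
        exact ⟨this.1, this.2.trans h1⟩

theorem lastblock (l : List ℕ) (r : ℕ) (h1 : [true, false] <+ enc l r)
    (h2 : ¬ [true, false, false] <+ enc l r) (h3 : ¬ [true, false, true] <+ enc l r) :
    ∃ m, l = replicate m 0 ++ [l.sum] ∧ r = 0 := by
  induction l with
  | nil =>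
    exfalso
    have := h1.count_le false
    simp [enc, List.count_replicate] at this
  | cons x l ih =>
    cases x with
    | zero =>
      have e : enc (0 :: l) r = false :: enc l r := rfl
      rw [e] at h1 h2 h3
      have h1' : [true, false] <+ enc l r := by
        cases h1 with
        | cons _ h => exact h
      obtain ⟨m, hm, hr⟩ := ih h1' (fun h => h2 (h.cons _)) (fun h => h3 (h.cons _))
      refine ⟨m + 1, ?_, hr⟩
      rw [List.replicate_succ, List.cons_append, List.sum_cons, zero_add, ← hm]
    | succ x =>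
      have e : enc ((x + 1) :: l) r = true :: (A x ++ false :: enc l r) := rfl
      rw [e] at h2 h3
      have h2' : ¬ ([false] <+ enc l r) := fun h => h2 (List.cons_sublist_cons.2
        ((List.cons_sublist_cons.2 h).trans (List.sublist_append_right _ _)))
      have h3' : ¬ ([true] <+ enc l r) := fun h => h3 (List.cons_sublist_cons.2
        ((List.cons_sublist_cons.2 h).trans (List.sublist_append_right _ _)))
      have e1 := eq_A h2'
      have e2 : (enc l r).count true = 0 := by
        rw [List.count_eq_zero]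
        intro h
        exact h3' (List.singleton_sublist.2 h)
      have e3 : (enc l r).count false = 0 := by
        rw [List.count_eq_zero]
        intro h
        exact h2' (List.singleton_sublist.2 h)
      rw [count_true_enc] at e2
      rw [count_false_enc] at e3
      have e4 : l = [] := List.eq_nil_of_length_eq_zero e3
      subst e4
      exact ⟨0, by simp, by omega⟩

theorem mul_sound {k n N : ℕ} {z w P y T q : List Bool}
    (hz1 : A N <+ z) (hz2 : ¬ (true :: A N) <+ z) (hz3 : B n <+ z) (hz4 : ¬ (false :: B n) <+ z)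
    (hw1 : (false :: z) <+ w) (hw2 : (false :: B n) <+ w) (hw3 : ¬ (false :: false :: B n) <+ w)
    (hw4 : A (k + N) <+ w) (hw5 : ¬ (true :: A (k + N)) <+ w)
    (hP1 : ¬ [false, true] <+ P) (hP2 : A k <+ P) (hP3 : ¬ (true :: A k) <+ P)
    (hP4 : (false :: B n) <+ P) (hP5 : ¬ (false :: false :: B n) <+ P) (hP6 : P <+ w)
    (hy1 : z <+ y) (hy2 : A N <+ y) (hy3 : ¬ (true :: A N) <+ y) (hy4 : (false :: B n) <+ y)
    (hy5 : ¬ (false :: false :: B n) <+ y) (hy6 : y <+ w)
    (hT1 : ¬ [false, true] <+ T) (hT2 : A N <+ T) (hT3 : ¬ (true :: A N) <+ T)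
    (hT4 : [false, false] <+ T) (hT5 : ¬ [false, false, false] <+ T) (hT6 : T <+ y)
    (hT7 : ¬ T <+ z)
    (hq1 : A k <+ q) (hq2 : ¬ (true :: A k) <+ q) (hq3 : B n <+ q) (hq4 : ¬ (false :: B n) <+ q)
    (hq5 : ¬ [true, false, false] <+ q) (hq6 : ¬ [true, false, true] <+ q)
    (hq7 : [true, false] <+ q) (hq8 : q <+ z) : N = n * k := by
  have cz1 : z.count true = N := count_eq hz1 hz2
  have cz2 : z.count false = n := count_eq hz3 hz4
  have cw1 : w.count true = k + N := count_eq hw4 hw5
  have cw2 : w.count false = n + 1 := count_eq (i := n + 1) hw2 hw3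
  have cP1 : P.count true = k := count_eq hP2 hP3
  have cP2 : P.count false = n + 1 := count_eq (i := n + 1) hP4 hP5
  have cy1 : y.count true = N := count_eq hy2 hy3
  have cy2 : y.count false = n + 1 := count_eq (i := n + 1) hy4 hy5
  have cT1 : T.count true = N := count_eq hT2 hT3
  have cT2 : T.count false = 2 := count_eq (i := 2) hT4 hT5
  have cq1 : q.count true = k := count_eq hq1 hq2
  have cq2 : q.count false = n := count_eq hq3 hq4
  have eT : T = A N ++ B 2 := by rw [eq_AB hT1, cT1, cT2]
  have eP : P = enc (k :: replicate n 0) 0 := by rw [eq_AB hP1, cP1, cP2, A_append_B]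
  subst eT eP
  -- the word `y` is `z b`
  obtain ⟨y0, hy0⟩ := tail hT6 cy1
  have hB2 : B 2 = [false] ++ [false] := rfl
  have hy0' : y = (y0 ++ [false]) ++ [false] := by rw [hy0, hB2, List.append_assoc]
  have len : ∀ x : List Bool, x.length = x.count true + x.count false := by
    intro x
    induction x with
    | nil => simp
    | cons b x ih =>
      cases b
      · rw [List.length_cons, List.count_cons_self, List.count_cons_of_ne (by decide)]; omega
      · rw [List.length_cons, List.count_cons_self, List.count_cons_of_ne (by decide)]; omega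
  have lz : z.length = N + n := by rw [len, cz1, cz2]
  have ly : y.length = N + (n + 1) := by rw [len, cy1, cy2]
  have ly0 : y.length = y0.length + 2 := by rw [hy0']; simp
  have hzy : y = z ++ [false] := by
    have h1 := hy1
    rw [hy0'] at h1
    rcases sub_append_singleton h1 with h2 | ⟨z', rfl, h2⟩
    · have := h2.eq_of_length (by rw [List.length_append, List.length_singleton]; omega)
      rw [hy0', this]
    · rcases sub_append_singleton h2 with h3 | ⟨z'', rfl, h3⟩
      · have := h3.eq_of_length (by
          rw [List.length_append, List.length_singleton] at lz; omega)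
        rw [hy0', this]
      · exfalso
        apply hT7
        have e : z'' ++ [false] ++ [false] = z'' ++ B 2 := by rw [hB2, List.append_assoc]
        rw [e]
        refine List.Sublist.append ?_ (List.Sublist.refl _)
        rw [A_sub]
        rw [e, List.count_append] at cz1
        simp [List.count_replicate] at cz1
        omega
  obtain ⟨l, r, rfl⟩ := exists_enc z
  obtain ⟨L, R, rfl⟩ := exists_enc w
  obtain ⟨lq, rq, rfl⟩ := exists_enc q
  rw [count_true_enc] at cz1 cw1 cq1
  rw [count_false_enc] at cz2 cw2 cq2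
  -- `r = 0`
  have hr : r = 0 := by
    have h1 : (A N ++ B 1) <+ enc l r := by
      have h2 := hT6
      rw [hzy] at h2
      have e : A N ++ B 2 = (A N ++ B 1) ++ [false] := by
        have e1 : B 1 = [false] := rfl
        rw [hB2, e1, List.append_assoc]
      rw [e] at h2
      exact (List.append_sublist_append_right _).1 h2
    obtain ⟨z0, hz0⟩ := tail h1 (by rw [count_true_enc]; exact cz1)
    obtain ⟨l0, r0, rfl⟩ := exists_enc z0
    have e : enc l0 r0 ++ B 1 = enc (l0 ++ [r0]) 0 := enc_append l0 r0
    rw [e] at hz0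
    have h3 : (enc l r).count false = (enc (l0 ++ [r0]) 0).count false := by rw [hz0]
    rw [count_false_enc, count_false_enc] at h3
    have h4 : enc l r <+ enc (l0 ++ [r0]) 0 := by rw [hz0]
    have := ((sub_enc h3).1 h4).2
    omega
  subst hr
  -- the word `w` is `a^k b z`
  have h1 : enc (0 :: l) 0 <+ enc L R := hw1
  rw [sub_enc (by simp; omega)] at h1
  have h2 := (sub_enc (by simp; omega)).1 hP6
  obtain ⟨x, L', rfl⟩ : ∃ x L', L = x :: L' := by
    cases L with
    | nil => simp at cw2
    | cons x L' => exact ⟨x, L', rfl⟩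
  have h3 := h1.1
  have h4 := h2.1
  simp only [List.forall₂_cons] at h3 h4
  have h5 := forall₂_sum_le h3.2
  simp only [List.sum_cons] at cw1
  have h6 := forall₂_eq h3.2 (by omega)
  subst h6
  have h7 : x = k := by omega
  subst h7
  -- the shift
  rw [hzy, enc_append] at hy6
  have h8 := ((sub_enc (by simp)).1 hy6).1
  obtain ⟨m, hm, hrq⟩ := lastblock lq rq hq7 hq5 hq6
  have h9 := ((sub_enc (by omega)).1 hq8).1
  rw [hm] at h9
  have h10 : lq.sum = x := by omega
  rw [h10] at h9
  obtain ⟨l1, x', rfl, hx'⟩ := last_of_forall₂ h9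
  have h11 := chain x x' 0 hx' l1 x h8
  have h12 : l1 ++ [x'] = replicate (l1 ++ [x']).length x :=
    List.eq_replicate_iff.2 ⟨rfl, fun t ht => le_antisymm (h11 t ht).2 (h11 t ht).1⟩
  have h13 : (l1 ++ [x']).sum = n * x := by
    rw [h12, List.sum_replicate, cz2]
    simp
  omega

theorem enc_zeros (n x : ℕ) : enc (replicate n 0 ++ [x]) 0 = B n ++ (A x ++ [false]) := by
  induction n with
  | zero => simp [enc]
  | succ n ih =>
    rw [List.replicate_succ, List.cons_append]
    change false :: enc (replicate n 0 ++ [x]) 0 = false :: (B n ++ (A x ++ [false]))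
    rw [ih]

theorem true_sub_B {n : ℕ} {u v : List Bool} (h : (true :: u) <+ (B n ++ v)) :
    (true :: u) <+ v := by
  induction n with
  | zero => exact h
  | succ n ih =>
    have h' : (true :: u) <+ (false :: (B n ++ v)) := h
    cases h' with
    | cons _ h' => exact ih h'

theorem enc_replicate_count (n k : ℕ) : (enc (replicate n k) 0).count true = n * k ∧
    (enc (replicate n k) 0).count false = n := by
  rw [count_true_enc, count_false_enc]
  simp

theorem mul_complete (k n N : ℕ) (hN : N = (n + 1) * (k + 1)) {z w P y T q : List Bool}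
    (hz : z = enc (replicate (n + 1) (k + 1)) 0) (hw : w = enc (replicate (n + 2) (k + 1)) 0)
    (hP : P = A (k + 1) ++ B (n + 2)) (hy : y = z ++ [false]) (hT : T = A N ++ B 2)
    (hq : q = enc (replicate n 0 ++ [k + 1]) 0) :
    (A N <+ z ∧ ¬ (true :: A N) <+ z ∧ B (n + 1) <+ z ∧ ¬ (false :: B (n + 1)) <+ z) ∧
    ((false :: z) <+ w ∧ (false :: B (n + 1)) <+ w ∧ ¬ (false :: false :: B (n + 1)) <+ w ∧
      A ((k + 1) + N) <+ w ∧ ¬ (true :: A ((k + 1) + N)) <+ w) ∧
    (¬ [false, true] <+ P ∧ A (k + 1) <+ P ∧ ¬ (true :: A (k + 1)) <+ P ∧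
      (false :: B (n + 1)) <+ P ∧ ¬ (false :: false :: B (n + 1)) <+ P ∧ P <+ w) ∧
    (z <+ y ∧ A N <+ y ∧ ¬ (true :: A N) <+ y ∧ (false :: B (n + 1)) <+ y ∧
      ¬ (false :: false :: B (n + 1)) <+ y ∧ y <+ w) ∧
    (¬ [false, true] <+ T ∧ A N <+ T ∧ ¬ (true :: A N) <+ T ∧ [false, false] <+ T ∧
      ¬ [false, false, false] <+ T ∧ T <+ y ∧ ¬ T <+ z ∧ ∃ t, T = true :: t) ∧
    (A (k + 1) <+ q ∧ ¬ (true :: A (k + 1)) <+ q ∧ B (n + 1) <+ q ∧ ¬ (false :: B (n + 1)) <+ q ∧
      ¬ [true, false, false] <+ q ∧ ¬ [true, false, true] <+ q ∧ [true, false] <+ q ∧ q <+ z) := by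
  have cz := enc_replicate_count (n + 1) (k + 1)
  rw [← hz] at cz
  have cz1 : z.count true = N := by rw [cz.1, hN]
  have cz2 : z.count false = n + 1 := cz.2
  have cw := enc_replicate_count (n + 2) (k + 1)
  rw [← hw] at cw
  have cw1 : w.count true = (k + 1) + N := by rw [cw.1, hN]; ring
  have cw2 : w.count false = n + 2 := cw.2
  have cP1 : P.count true = k + 1 := by rw [hP, List.count_append]; simp [List.count_replicate]
  have cP2 : P.count false = n + 2 := by rw [hP, List.count_append]; simp [List.count_replicate]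
  have cy1 : y.count true = N := by rw [hy, List.count_append, cz1]; simp
  have cy2 : y.count false = n + 2 := by rw [hy, List.count_append, cz2]; simp
  have cT1 : T.count true = N := by rw [hT, List.count_append]; simp [List.count_replicate]
  have cT2 : T.count false = 2 := by rw [hT, List.count_append]; simp [List.count_replicate]
  have cq1 : q.count true = k + 1 := by rw [hq, count_true_enc]; simp
  have cq2 : q.count false = n + 1 := by rw [hq, count_false_enc]; simp
  have hwz : w = A (k + 1) ++ false :: z := by rw [hw, hz]; rfl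
  have hwz' : w = enc ((k + 1) :: replicate (n + 1) (k + 1)) 0 := by rw [hw]; rfl
  have hy' : y = enc (replicate (n + 1) (k + 1) ++ [0]) 0 := by rw [hy, hz, enc_append]
  have hz' : z = enc (replicate n (k + 1) ++ [k + 1]) 0 := by
    rw [hz, List.replicate_succ']
  refine ⟨⟨(count_eq' cz1).1, (count_eq' cz1).2, (count_eq' cz2).1, (count_eq' cz2).2⟩,
    ⟨?_, (count_eq' cw2).1, (count_eq' cw2).2, (count_eq' cw1).1, (count_eq' cw1).2⟩,
    ⟨?_, (count_eq' cP1).1, (count_eq' cP1).2, (count_eq' cP2).1, (count_eq' cP2).2, ?_⟩,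
    ⟨?_, (count_eq' cy1).1, (count_eq' cy1).2, (count_eq' cy2).1, (count_eq' cy2).2, ?_⟩,
    ⟨?_, (count_eq' cT1).1, (count_eq' cT1).2, (count_eq' (i := 2) cT2).1,
      (count_eq' (i := 2) cT2).2, ?_, ?_, ?_⟩,
    ⟨(count_eq' cq1).1, (count_eq' cq1).2, (count_eq' cq2).1, (count_eq' cq2).2, ?_, ?_, ?_, ?_⟩⟩
  · rw [hwz]; exact List.sublist_append_right _ _
  · rw [hP]; exact not_BA_AB _ _
  · rw [hP, hwz', A_append_B, sub_enc (by simp)]
    refine ⟨List.Forall₂.cons le_rfl ?_, le_rfl⟩
    rw [List.forall₂_iff_get]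
    refine ⟨by simp, fun i h1 h2 => by simp⟩
  · rw [hy]; exact List.sublist_append_left _ _
  · rw [hy', hwz', sub_enc (by simp)]
    refine ⟨?_, le_rfl⟩
    rw [List.forall₂_iff_get]
    refine ⟨by simp, fun i h1 h2 => ?_⟩
    simp only [List.get_eq_getElem]
    have e : ((k + 1) :: replicate (n + 1) (k + 1))[i] = k + 1 := by
      have : ((k + 1) :: replicate (n + 1) (k + 1)) = replicate (n + 2) (k + 1) := rfl
      simp [this]
    rw [e, List.getElem_append]
    split_ifs <;> simp
  · rw [hT]; exact not_BA_AB _ _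
  · rw [hT, hy]
    have e : A N ++ B 2 = (A N ++ [false]) ++ [false] := by
      have : B 2 = [false] ++ [false] := rfl
      rw [this, List.append_assoc]
    rw [e, List.append_sublist_append_right, hz', ← enc_append]
    refine (List.append_sublist_append_right _).2 ?_
    rw [A_sub, count_true_enc, hN]
    simp
    exact le_of_eq (by ring)
  · intro h
    rw [hT] at h
    obtain ⟨z0, hz0⟩ := tail h cz1
    obtain ⟨l0, r0, rfl⟩ := exists_enc z0
    have e : enc l0 r0 ++ B 2 = enc ((l0 ++ [r0]) ++ [0]) 0 := by
      have : B 2 = [false] ++ [false] := rfl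
      rw [this, ← List.append_assoc, enc_append, enc_append]
    rw [e] at hz0
    have h3 : (enc ((replicate n (k + 1)) ++ [k + 1]) 0).count false =
        (enc ((l0 ++ [r0]) ++ [0]) 0).count false := by rw [← hz0, hz']
    rw [count_false_enc, count_false_enc] at h3
    have h4 : enc ((replicate n (k + 1)) ++ [k + 1]) 0 <+ enc ((l0 ++ [r0]) ++ [0]) 0 := by
      rw [← hz0, hz']
    obtain ⟨l1, x, h5, h6⟩ := last_of_forall₂ ((sub_enc h3).1 h4).1
    have := (List.append_inj' h5 rfl).2
    simp at this
    omega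
  · have : N = ((n + 1) * (k + 1) - 1) + 1 := by
      have : 0 < (n + 1) * (k + 1) := by positivity
      omega
    rw [hT, this]
    exact ⟨_, rfl⟩
  · intro h
    rw [hq, enc_zeros] at h
    have h2 := (true_sub_B h).count_le false
    simp [List.count_append, List.count_replicate] at h2
  · intro h
    rw [hq, enc_zeros] at h
    have h2 := true_sub_B h
    exact not_BA_AB (k + 1) 1 ((List.sublist_cons_self _ _).trans h2)
  · rw [hq, enc_zeros]
    refine List.Sublist.trans ?_ (List.sublist_append_right _ _)
    have h1 : [true] <+ A (k + 1) := List.singleton_sublist.2 (by simp)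
    exact List.Sublist.append h1 (List.Sublist.refl [false])
  · rw [hq, hz', sub_enc (by simp)]
    refine ⟨?_, le_rfl⟩
    rw [List.forall₂_iff_get]
    refine ⟨by simp, fun i h1 h2 => ?_⟩
    simp only [List.get_eq_getElem, List.getElem_append]
    simp only [List.length_replicate]
    split_ifs <;> simp

end Pool.Agent.H527R3.Rpo
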