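import Pool.Agent.H527R3.Rpo.Def

set_option autoImplicit false

/-!
# Recursively enumerable sets of numbers are defined by systems of word constraints
-/

namespace Pool.Agent.H527R3.Rpo

open List

theorem ed_true {α : Type} : ED fun _ : α → List Bool => True :=
  ⟨Empty, [], fun _ => ⟨fun _ => ⟨Empty.elim, fun _ h => absurd h List.not_mem_nil⟩,
    fun _ => trivial⟩⟩

theorem ed_one {α : Type} (c : WC α) : ED fun v : α → List Bool => c.Sat v := by
  refine ⟨Empty, [c.map Sum.inl], fun v => ?_⟩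
  constructor
  · intro h
    refine ⟨Empty.elim, fun d hd => ?_⟩
    rw [List.mem_singleton] at hd
    subst hd
    rw [WC.sat_map]
    exact h
  · rintro ⟨t, ht⟩
    have := ht _ (List.mem_singleton.2 rfl)
    rw [WC.sat_map] at this
    exact this

theorem ed_nil {α : Type} (x : α) : ED fun v : α → List Bool => v x = [] := ed_one (.nil x)

theorem ed_cons {α : Type} (b : Bool) (x y : α) : ED fun v : α → List Bool => v x = b :: v y :=
  ed_one (.cons b x y)

theorem ed_eq {α : Type} (x y : α) : ED fun v : α → List Bool => v x = v y := by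
  refine ((ed_cons (α := α ⊕ Unit) true (.inr ()) (.inl x)).and
    (ed_cons true (.inr ()) (.inl y))).ex.congr fun v => ?_
  simp only [Sum.elim_inl, Sum.elim_inr]
  constructor
  · intro h
    exact ⟨fun _ => true :: v x, rfl, by rw [h]⟩
  · rintro ⟨t, h1, h2⟩
    rw [h1] at h2
    exact (List.cons.inj h2).2

theorem ed_forall {α γ : Type} [Finite γ] {R : γ → (α → List Bool) → Prop} (h : ∀ i, ED (R i)) :
    ED fun v => ∀ i, R i v := by
  classical
  have := Fintype.ofFinite γ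
  have key : ∀ s : Finset γ, ED fun v => ∀ i ∈ s, R i v := by
    intro s
    induction s using Finset.induction_on with
    | empty => exact ed_true.congr fun v => by simp
    | insert a s _ ih =>
      refine ((h a).and ih).congr fun v => ?_
      simp
  exact (key Finset.univ).congr fun v => by simp

/-- `v x` is `a^(m+1)` for some `m` -/
theorem ed_num {α : Type} (x : α) : ED fun v : α → List Bool => ∃ m, v x = A (m + 1) := by
  refine ((ed_nil (α := α ⊕ Fin 3) (.inr 0)).and ((ed_cons false (.inr 1) (.inr 0)).and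
    ((ed_cons true (.inl x) (.inr 2)).and
    (ed_one (.nsub false (.inr 1) (.inl x)))))).ex.congr fun v => ?_
  simp only [Sum.elim_inl, Sum.elim_inr, WC.Sat]
  constructor
  · rintro ⟨m, h⟩
    refine ⟨![[], [false], A m], rfl, rfl, h, ⟨[], rfl⟩, ?_⟩
    rw [h]
    intro h'
    have := List.singleton_sublist.1 h'
    simp at this
  · rintro ⟨t, h0, h1, h2, h3⟩
    rw [h1, h0] at h3
    have h4 := eq_A h3.2
    rw [h2] at h4
    refine ⟨(t 2).length, ?_⟩
    rw [h2, h4]
    simp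

/-- functions of natural numbers defined by word constraints, `x` being given by `a^(x+1)` -/
def NF {α : Type} (f : (α → ℕ) → ℕ) : Prop :=
  ∃ R : (α → List Bool) → List Bool → Prop,
    (ED fun v : α ⊕ Unit → List Bool => R (v ∘ Sum.inl) (v (Sum.inr ()))) ∧
    ∀ (x : α → ℕ) (w : List Bool), R (fun i => A (x i + 1)) w ↔ w = A (f x + 1)

theorem NF.proj {α : Type} (i : α) : NF fun x : α → ℕ => x i :=
  ⟨fun v w => w = v i, ed_eq (α := α ⊕ Unit) (Sum.inr ()) (Sum.inl i), fun _ _ => Iff.rfl⟩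

theorem NF.zero {α : Type} : NF fun _ : α → ℕ => 0 := by
  refine ⟨fun _ w => w = [true], ?_, fun _ _ => Iff.rfl⟩
  refine ((ed_nil (α := (α ⊕ Unit) ⊕ Unit) (.inr ())).and
    (ed_cons true (.inl (.inr ())) (.inr ()))).ex.congr fun v => ?_
  simp only [Sum.elim_inl, Sum.elim_inr]
  constructor
  · intro h
    exact ⟨fun _ => [], rfl, h⟩
  · rintro ⟨t, h1, h2⟩
    rw [h2, h1]

theorem NF.one {α : Type} : NF fun _ : α → ℕ => 1 := by
  refine ⟨fun _ w => w = [true, true], ?_, fun _ _ => Iff.rfl⟩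
  refine ((ed_nil (α := (α ⊕ Unit) ⊕ Fin 2) (.inr 0)).and
    ((ed_cons true (.inr 1) (.inr 0)).and
    (ed_cons true (.inl (.inr ())) (.inr 1)))).ex.congr fun v => ?_
  simp only [Sum.elim_inl, Sum.elim_inr]
  constructor
  · intro h
    exact ⟨![[], [true]], rfl, rfl, h⟩
  · rintro ⟨t, h1, h2, h3⟩
    rw [h3, h2, h1]

theorem A_inj {i j : ℕ} (h : A i = A j) : i = j := by
  have := congrArg List.length h
  simpa using this

theorem NF.add {α : Type} {f g : (α → ℕ) → ℕ} (hf : NF f) (hg : NF g) :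
    NF fun x => f x + g x := by
  obtain ⟨Rf, hf, hf'⟩ := hf
  obtain ⟨Rg, hg, hg'⟩ := hg
  refine ⟨fun v w => ∃ t : Fin 3 → List Bool, Rf v (t 0) ∧ Rg v (t 1) ∧
    (∃ i j : ℕ, t 0 = A i ∧ t 1 = A j ∧ t 2 = A (i + j)) ∧ t 2 = true :: w, ?_, ?_⟩
  · refine ((hf.ren (Sum.elim (Sum.inl ∘ Sum.inl) (fun _ => Sum.inr 0) :
      α ⊕ Unit → (α ⊕ Unit) ⊕ Fin 3)).and ((hg.ren (Sum.elim (Sum.inl ∘ Sum.inl)
      (fun _ => Sum.inr 1) : α ⊕ Unit → (α ⊕ Unit) ⊕ Fin 3)).and
      ((ed_add.ren (fun i => (Sum.inr i : (α ⊕ Unit) ⊕ Fin 3))).and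
      (ed_cons true (.inr 2) (.inl (.inr ())))))).ex.congr fun v => ?_
    exact Iff.rfl
  · intro x w
    constructor
    · rintro ⟨t, h1, h2, ⟨i, j, h3, h4, h5⟩, h6⟩
      rw [hf'] at h1
      rw [hg'] at h2
      have e1 := A_inj (h1.symm.trans h3)
      have e2 := A_inj (h2.symm.trans h4)
      rw [h5, ← e1, ← e2] at h6
      have e3 : f x + 1 + (g x + 1) = (f x + g x + 1) + 1 := by ring
      rw [e3] at h6
      exact (List.cons.inj h6).2.symm
    · rintro rfl
      refine ⟨![A (f x + 1), A (g x + 1), A (f x + 1 + (g x + 1))], (hf' _ _).2 rfl,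
        (hg' _ _).2 rfl, ⟨_, _, rfl, rfl, rfl⟩, ?_⟩
      have e3 : f x + 1 + (g x + 1) = (f x + g x + 1) + 1 := by ring
      change A (f x + 1 + (g x + 1)) = _
      rw [e3]
      rfl

theorem NF.mul {α : Type} {f g : (α → ℕ) → ℕ} (hf : NF f) (hg : NF g) :
    NF fun x => f x * g x := by
  obtain ⟨Rf, hf, hf'⟩ := hf
  obtain ⟨Rg, hg, hg'⟩ := hg
  -- 0: F, 1: G, 2: nu, 3: eta, 4: [true], 5: [], 6: W1, 7: W2, 8: true :: eta
  refine ⟨fun v w => ∃ t : Fin 9 → List Bool, Rf v (t 0) ∧ Rg v (t 1) ∧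
    (∃ k n : ℕ, t 4 = A (k + 1) ∧ t 2 = B (n + 1) ∧ t 1 = A ((n + 1) * (k + 1))) ∧
    (∃ k n : ℕ, t 0 = A (k + 1) ∧ t 2 = B (n + 1) ∧ t 3 = A ((n + 1) * (k + 1))) ∧
    t 5 = [] ∧ t 4 = true :: t 5 ∧
    (∃ i j : ℕ, w = A i ∧ t 0 = A j ∧ t 6 = A (i + j)) ∧
    (∃ i j : ℕ, t 6 = A i ∧ t 1 = A j ∧ t 7 = A (i + j)) ∧
    t 8 = true :: t 3 ∧ t 7 = true :: t 8, ?_, ?_⟩
  · refine ((hf.ren (Sum.elim (Sum.inl ∘ Sum.inl) (fun _ => Sum.inr 0) :
      α ⊕ Unit → (α ⊕ Unit) ⊕ Fin 9)).and ((hg.ren (Sum.elim (Sum.inl ∘ Sum.inl)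
      (fun _ => Sum.inr 1) : α ⊕ Unit → (α ⊕ Unit) ⊕ Fin 9)).and
      ((ed_mul.ren (![.inr 4, .inr 2, .inr 1] : Fin 3 → (α ⊕ Unit) ⊕ Fin 9)).and
      ((ed_mul.ren (![.inr 0, .inr 2, .inr 3] : Fin 3 → (α ⊕ Unit) ⊕ Fin 9)).and
      ((ed_nil (.inr 5)).and ((ed_cons true (.inr 4) (.inr 5)).and
      ((ed_add.ren (![.inl (.inr ()), .inr 0, .inr 6] : Fin 3 → (α ⊕ Unit) ⊕ Fin 9)).and
      ((ed_add.ren (![.inr 6, .inr 1, .inr 7] : Fin 3 → (α ⊕ Unit) ⊕ Fin 9)).and
      ((ed_cons true (.inr 8) (.inr 3)).and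
      (ed_cons true (.inr 7) (.inr 8))))))))))).ex.congr fun v => ?_
    exact Iff.rfl
  · intro x w
    constructor
    · rintro ⟨t, h1, h2, ⟨k, n, m1, m2, m3⟩, ⟨k', n', n1, n2, n3⟩, c1, c2, ⟨i, j, a1, a2, a3⟩,
        ⟨i', j', b1, b2, b3⟩, c3, c4⟩
      rw [hf'] at h1
      rw [hg'] at h2
      have e1 : k = 0 := by
        have := congrArg List.length (m1.symm.trans (c2.trans (by rw [c1])))
        simpa using this
      subst e1
      have e2 : g x + 1 = (n + 1) * (0 + 1) := A_inj (h2.symm.trans m3)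
      have e3 : f x + 1 = k' + 1 := A_inj (h1.symm.trans n1)
      have e4 : n = n' := by
        have := congrArg List.length (m2.symm.trans n2)
        simpa using this
      subst e4
      have e5 : f x + 1 = j := A_inj (h1.symm.trans a2)
      have e6 : i + j = i' := A_inj (a3.symm.trans b1)
      have e7 : g x + 1 = j' := A_inj (h2.symm.trans b2)
      have e8 : i' + j' = (n + 1) * (k' + 1) + 2 := by
        have : A (i' + j') = true :: true :: A ((n + 1) * (k' + 1)) := by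
          rw [← b3, c4, c3, n3]
        have := congrArg List.length this
        simpa using this
      have e9 : n = g x := by omega
      have e10 : k' = f x := by omega
      subst e10
      have e11 : i = f x * g x + 1 := by
        rw [e9] at e8
        have : (g x + 1) * (f x + 1) = f x * g x + f x + g x + 1 := by ring
        omega
      rw [a1, e11]
    · rintro rfl
      refine ⟨![A (f x + 1), A (g x + 1), B (g x + 1), A ((g x + 1) * (f x + 1)), [true], [],
        A ((f x * g x + 1) + (f x + 1)), A ((f x * g x + 1) + (f x + 1) + (g x + 1)),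
        true :: A ((g x + 1) * (f x + 1))], (hf' _ _).2 rfl,
        (hg' _ _).2 rfl, ⟨0, g x, rfl, rfl, ?_⟩, ⟨f x, g x, rfl, rfl, rfl⟩, rfl, rfl,
        ⟨_, _, rfl, rfl, rfl⟩, ⟨_, _, rfl, rfl, rfl⟩, rfl, ?_⟩
      · change A (g x + 1) = _
        rw [zero_add, mul_one]
      · change A ((f x * g x + 1) + (f x + 1) + (g x + 1)) = true :: true :: _
        have e3 : (f x * g x + 1) + (f x + 1) + (g x + 1) = (g x + 1) * (f x + 1) + 1 + 1 := by
          ring
        rw [e3]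
        rfl

theorem NF.const {α : Type} (n : ℕ) : NF fun _ : α → ℕ => n := by
  induction n with
  | zero => exact NF.zero
  | succ n ih => exact ih.add NF.one

theorem exists_NF {α : Type} (P : Poly α) : ∃ p q : (α → ℕ) → ℕ, NF p ∧ NF q ∧
    ∀ x, P x = (p x : ℤ) - q x := by
  induction P using Poly.induction with
  | H1 i => exact ⟨_, _, NF.proj i, NF.zero, fun x => by simp⟩
  | H2 n =>
    refine ⟨_, _, NF.const n.toNat, NF.const (-n).toNat, fun x => ?_⟩
    simp only [Poly.const_apply]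
    omega
  | H3 f g hf hg =>
    obtain ⟨p, q, hp, hq, h⟩ := hf
    obtain ⟨p', q', hp', hq', h'⟩ := hg
    refine ⟨_, _, hp.add hq', hq.add hp', fun x => ?_⟩
    rw [Poly.sub_apply, h, h']
    push_cast
    ring
  | H4 f g hf hg =>
    obtain ⟨p, q, hp, hq, h⟩ := hf
    obtain ⟨p', q', hp', hq', h'⟩ := hg
    refine ⟨_, _, (hp.mul hp').add (hq.mul hq'), (hp.mul hq').add (hq.mul hp'), fun x => ?_⟩
    rw [Poly.mul_apply, h, h']
    push_cast
    ring

/-- every recursively enumerable set of numbers is defined by a system of word constraints -/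
theorem re_ed {p : ℕ → Prop} (hp : REPred p) : ∃ R : (Unit → List Bool) → Prop, ED R ∧
    ∀ n, R (fun _ => A (n + 1)) ↔ p n := by
  obtain ⟨δ, _, P, hP⟩ := Pool.Agent.Helper344.DP.finite_dummies
    (Pool.Agent.Helper344.DP.dprm hp)
  obtain ⟨f, g, ⟨Rf, hf, hf'⟩, ⟨Rg, hg, hg'⟩, h⟩ := exists_NF P
  let e : (Unit ⊕ δ) ⊕ Unit → Unit ⊕ (δ ⊕ Unit) :=
    Sum.elim (Sum.elim Sum.inl (Sum.inr ∘ Sum.inl)) (Sum.inr ∘ Sum.inr)
  refine ⟨_, ((ed_forall fun i : δ => ed_num (Sum.inr (Sum.inl i))).and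
    ((hf.ren e).and (hg.ren e))).ex, fun n => ?_⟩
  have h1 : p n ↔ ∃ t : δ → ℕ, P (Sum.elim (fun _ => n) t) = 0 := hP (fun _ => n)
  rw [h1]
  have key : ∀ (t : δ ⊕ Unit → List Bool) (x : δ → ℕ), (∀ i, t (Sum.inl i) = A (x i + 1)) →
      (Sum.elim (fun _ => A (n + 1)) t ∘ e) ∘ Sum.inl =
        fun i => A (Sum.elim (fun _ => n) x i + 1) := by
    intro t x hx
    funext i
    rcases i with i | i
    · rfl
    · exact hx i
  constructor
  · rintro ⟨t, ht, h2, h3⟩
    choose x hx using ht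
    have h2' : Rf ((Sum.elim (fun _ => A (n + 1)) t ∘ e) ∘ Sum.inl) (t (Sum.inr ())) := h2
    have h3' : Rg ((Sum.elim (fun _ => A (n + 1)) t ∘ e) ∘ Sum.inl) (t (Sum.inr ())) := h3
    rw [key t x hx] at h2' h3'
    rw [hf'] at h2'
    rw [hg'] at h3'
    refine ⟨x, ?_⟩
    have := A_inj (h2'.symm.trans h3')
    rw [h]
    omega
  · rintro ⟨x, hx⟩
    rw [h] at hx
    refine ⟨Sum.elim (fun i => A (x i + 1)) (fun _ => A (f (Sum.elim (fun _ => n) x) + 1)),
      fun i => ⟨x i, rfl⟩, ?_, ?_⟩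
    · have := (hf' (Sum.elim (fun _ => n) x) _).2 rfl
      rw [← key (Sum.elim (fun i => A (x i + 1))
        (fun _ => A (f (Sum.elim (fun _ => n) x) + 1))) x (fun i => rfl)] at this
      exact this
    · have hfg : f (Sum.elim (fun _ => n) x) = g (Sum.elim (fun _ => n) x) := by omega
      have := (hg' (Sum.elim (fun _ => n) x) _).2 rfl
      rw [← key (Sum.elim (fun i => A (x i + 1))
        (fun _ => A (f (Sum.elim (fun _ => n) x) + 1))) x (fun i => rfl), ← hfg] at this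
      exact this

end Pool.Agent.H527R3.Rpo
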