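import Pool.Agent.H527R3.Rpo.Defs
import Pool.Agent.H527R3.Rpo.Num

set_option autoImplicit false

/-!
# The words inside the algebra of terms
-/

namespace Pool.Agent.H527R3.Rpo

/-- the hypotheses on the signature -/
structure Hyp {F : Type} (ar : F → ℕ) (prec : F → F → Prop) (st : F → Bool) (c f g : F) :
    Prop where
  hc : ar c = 0
  mc : ∀ h, prec c h → ar h ≠ 0
  hf : ar f ≠ 0
  hg : ar g ≠ 0
  hfg : f ≠ g
  sf : ar f = 1 ∨ st f = true
  sg : ar g = 1 ∨ st g = true
  mf : ∀ h, prec f h → h = c
  mg : ∀ h, prec g h → h = c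

variable {F : Type} {ar : F → ℕ} {prec : F → F → Prop} {st : F → Bool} {c f g : F}

theorem Eqv.refl (t : Tm ar) : Eqv st t t := by
  induction t with
  | mk f t ih => exact Eqv.mk f t t 1 (fun _ => rfl) ih

/-- the constant, as a term -/
def cst (c : F) (hc : ar c = 0) : Tm ar := .mk c fun i => (Fin.cast hc i).elim0

theorem mk_c (hc : ar c = 0) (s : Fin (ar c) → Tm ar) : Tm.mk c s = cst c hc := by
  unfold cst
  congr 1
  funext i
  exact (Fin.cast hc i).elim0

/-- the term `h(C, …, C, x)` -/
def U (C : Tm ar) (h : F) (x : Tm ar) : Tm ar := .mk h fun i => if (i : ℕ) + 1 = ar h then x else C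

theorem U_inj {C : Tm ar} {h h' : F} {x x' : Tm ar} (hh : ar h ≠ 0) (e : U C h x = U C h' x') :
    h = h' ∧ x = x' := by
  unfold U at e
  obtain ⟨h1, h2⟩ := Tm.mk.inj e
  subst h1
  have h3 := congrFun (eq_of_heq h2) ⟨ar h - 1, by omega⟩
  have h4 : ar h - 1 + 1 = ar h := by omega
  simp only [h4, if_true] at h3
  exact ⟨rfl, h3⟩

theorem head_inj {h h' : F} {s : Fin (ar h) → Tm ar} {s' : Fin (ar h') → Tm ar}
    (e : Tm.mk h s = Tm.mk h' s') : h = h' := (Tm.mk.inj e).1

theorem eqv_cst {hc : ar c = 0} {t : Tm ar} (h : Eqv st (cst c hc) t) : t = cst c hc := by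
  unfold cst at h
  cases h with
  | mk _ _ t' _ _ _ => exact mk_c _ t'

theorem mono {k : F} {s r : Fin (ar k) → Tm ar} (h : ∀ j, s j = r j ∨ Gt prec st (s j) (r j)) :
    Tm.mk k s = .mk k r ∨ Gt prec st (.mk k s) (.mk k r) := by
  classical
  by_cases hall : ∀ j, s j = r j
  · left
    rw [funext hall]
  right
  push Not at hall
  have h' : ∀ j, Gt prec st (.mk k s) (r j) := by
    intro j
    rcases h j with e | e
    · exact Gt.eqv k s _ j (by rw [e]; exact Eqv.refl _)
    · exact Gt.sub k s _ j e
  cases hs : st k with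
  | true =>
    obtain ⟨i, hi, hmin⟩ := WellFounded.has_min
      (wellFounded_lt : WellFounded ((· < ·) : Fin (ar k) → Fin (ar k) → Prop))
      {i | s i ≠ r i} hall
    refine Gt.lex k s r hs h' i (fun j hj => ?_) ((h i).resolve_left hi)
    have : s j = r j := by
      by_contra hne
      exact hmin j hne hj
    rw [this]
    exact Eqv.refl _
  | false =>
    obtain ⟨i0, hi0⟩ := hall
    refine Gt.mul k s r hs h' 1 (Finset.univ.filter fun i => s i ≠ r i)
      ⟨i0, by simp [hi0]⟩ id (fun i hi => ?_) (fun i hi => hi) (fun i hi => ?_)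
    · have : s i = r i := by simpa using hi
      rw [this]
      exact Eqv.refl _
    · have h0 : s i ≠ r i := by simpa using hi
      exact (h i).resolve_left h0

section
variable {C : Tm ar} {h : F} {x y : Tm ar}

theorem U_gt_eqv (hh : ar h ≠ 0) (e : Eqv st x y) : Gt prec st (U C h x) y := by
  refine Gt.eqv h _ _ ⟨ar h - 1, by omega⟩ ?_
  have h4 : ar h - 1 + 1 = ar h := by omega
  simp only [h4, if_true]
  exact e

theorem U_gt_sub (hh : ar h ≠ 0) (e : Gt prec st x y) : Gt prec st (U C h x) y := by
  refine Gt.sub h _ _ ⟨ar h - 1, by omega⟩ ?_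
  have h4 : ar h - 1 + 1 = ar h := by omega
  simp only [h4, if_true]
  exact e

theorem U_gt_U (hh : ar h ≠ 0) (e : Gt prec st x y) : Gt prec st (U C h x) (U C h y) := by
  classical
  have h4 : ar h - 1 + 1 = ar h := by omega
  let i0 : Fin (ar h) := ⟨ar h - 1, by omega⟩
  have h' : ∀ j : Fin (ar h), Gt prec st
      (.mk h (fun i : Fin (ar h) => if (i : ℕ) + 1 = ar h then x else C))
      (if (j : ℕ) + 1 = ar h then y else C) := by
    intro j
    by_cases hj : (j : ℕ) + 1 = ar h
    · rw [if_pos hj]
      exact U_gt_sub (C := C) hh e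
    · rw [if_neg hj]
      refine Gt.eqv h _ _ j ?_
      rw [if_neg hj]
      exact Eqv.refl _
  have h0 : Gt prec st (if (i0 : ℕ) + 1 = ar h then x else C)
      (if (i0 : ℕ) + 1 = ar h then y else C) := by
    rw [if_pos h4, if_pos h4]
    exact e
  have h1 : ∀ j : Fin (ar h), j ≠ i0 → Eqv st (if (j : ℕ) + 1 = ar h then x else C)
      (if (j : ℕ) + 1 = ar h then y else C) := by
    intro j hj
    have h5 : ¬ (j : ℕ) + 1 = ar h := fun h6 => hj (Fin.ext (by change (j : ℕ) = ar h - 1; omega))
    rw [if_neg h5, if_neg h5]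
    exact Eqv.refl _
  unfold U
  cases hs : st h with
  | true => exact Gt.lex h _ _ hs h' i0 (fun j hj => h1 j (ne_of_lt hj)) h0
  | false =>
    exact Gt.mul h _ _ hs h' 1 {i0} ⟨i0, by simp⟩ id (fun j hj => h1 j (by simpa using hj))
      (fun j hj => hj) (fun j hj => by
        rw [Finset.mem_singleton] at hj
        subst hj
        exact h0)

end

section
variable (H : Hyp ar prec st c f g)
include H

theorem not_C_gt (t : Tm ar) : ¬ Gt prec st (cst c H.hc) t := by
  induction t with
  | mk h s ih =>
    intro hgt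
    unfold cst at hgt ih
    cases hgt with
    | eqv _ _ _ i _ => exact (Fin.cast H.hc i).elim0
    | sub _ _ _ i _ => exact (Fin.cast H.hc i).elim0
    | prec _ _ _ _ hp h' =>
      have h0 := H.mc h hp
      exact ih ⟨0, by omega⟩ (h' ⟨0, by omega⟩)
    | lex _ _ _ _ _ i _ _ => exact (Fin.cast H.hc i).elim0
    | mul _ _ _ _ _ σ A hA _ _ _ _ => exact (Fin.cast H.hc hA.choose).elim0

theorem inv {h : F} (hs : ar h = 1 ∨ st h = true)
    (hm : ∀ h', prec h h' → h' = c) {x t : Tm ar} (hgt : Gt prec st (U (cst c H.hc) h x) t) :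
    t = cst c H.hc ∨ Eqv st x t ∨ Gt prec st x t ∨
      ∃ y, t = U (cst c H.hc) h y ∧ Gt prec st x y := by
  unfold U at hgt
  cases hgt with
  | eqv _ _ _ i h1 =>
    by_cases hi : (i : ℕ) + 1 = ar h
    · simp only [hi, if_true] at h1
      exact Or.inr (Or.inl h1)
    · simp only [hi, if_false] at h1
      exact Or.inl (eqv_cst h1)
  | sub _ _ _ i h1 =>
    by_cases hi : (i : ℕ) + 1 = ar h
    · simp only [hi, if_true] at h1
      exact Or.inr (Or.inr (Or.inl h1))
    · simp only [hi, if_false] at h1
      exact absurd h1 (not_C_gt H t)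
  | prec _ g' _ t' hp h' =>
    left
    have := hm g' hp
    subst this
    exact mk_c _ t'
  | lex _ _ t' _ _ i h1 h2 =>
    by_cases hi : (i : ℕ) + 1 = ar h
    · simp only [hi, if_true] at h2
      refine Or.inr (Or.inr (Or.inr ⟨t' i, ?_, h2⟩))
      unfold U
      congr 1
      funext j
      by_cases hj : (j : ℕ) + 1 = ar h
      · rw [if_pos hj]
        congr 1
        exact Fin.ext (by omega)
      · rw [if_neg hj]
        have h3 : j < i := by
          have := j.2
          exact Fin.lt_def.2 (by omega)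
        have h4 := h1 j h3
        simp only [hj, if_false] at h4
        exact eqv_cst h4
    · simp only [hi, if_false] at h2
      exact absurd h2 (not_C_gt H _)
  | mul _ _ t' hf _ σ A hA κ _ _ h3 =>
    have h1 : ar h = 1 := hs.resolve_right (by rw [hf]; decide)
    obtain ⟨i, hi⟩ := hA
    have h4 := h3 i hi
    have h5 : ((κ i : Fin (ar h)) : ℕ) + 1 = ar h := by
      have := (κ i).2
      omega
    simp only [h5, if_true] at h4
    refine Or.inr (Or.inr (Or.inr ⟨t' (σ i), ?_, h4⟩))
    unfold U
    congr 1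
    funext j
    have hj : (j : ℕ) + 1 = ar h := by
      have := j.2
      omega
    rw [if_pos hj]
    congr 1
    refine Fin.ext ?_
    have := (σ i).2
    omega

/-- the symbol of a letter -/
def sym (f g : F) (b : Bool) : F := if b = true then f else g

theorem sym_ar (b : Bool) : ar (sym f g b) ≠ 0 := by
  unfold sym
  split_ifs
  · exact H.hf
  · exact H.hg

theorem sym_st (b : Bool) : ar (sym f g b) = 1 ∨ st (sym f g b) = true := by
  unfold sym
  split_ifs
  · exact H.sf
  · exact H.sg

theorem sym_m (b : Bool) : ∀ h', prec (sym f g b) h' → h' = c := by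
  unfold sym
  split_ifs
  · exact H.mf
  · exact H.mg

theorem sym_inj {b b' : Bool} (h : sym f g b = sym f g b') : b = b' := by
  have hfg := H.hfg
  unfold sym at h
  cases b <;> cases b' <;> simp_all

/-- words as terms -/
def W : List Bool → Tm ar
  | [] => cst c H.hc
  | b :: w => U (cst c H.hc) (sym f g b) (W w)

theorem U_ne_cst {h : F} {x C : Tm ar} (hh : ar h ≠ 0) : U C h x ≠ cst c H.hc := by
  intro e
  have h1 : h = c := head_inj e
  subst h1
  exact hh H.hc

theorem W_inj {u w : List Bool} (h : W H u = W H w) : u = w := by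
  induction u generalizing w with
  | nil =>
    cases w with
    | nil => rfl
    | cons b w => exact absurd h.symm (U_ne_cst H (sym_ar H b))
  | cons b u ih =>
    cases w with
    | nil => exact absurd h (U_ne_cst H (sym_ar H b))
    | cons b' w =>
      obtain ⟨h1, h2⟩ := U_inj (sym_ar H b) h
      rw [ih h2, sym_inj H h1]

theorem eqv_W {u : List Bool} {t : Tm ar} (h : Eqv st (W H u) t) : t = W H u := by
  induction u generalizing t with
  | nil => exact eqv_cst h
  | cons b u ih =>
    have hb := sym_ar H b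
    have hs := sym_st H b
    change Eqv st (U (cst c H.hc) (sym f g b) (W H u)) t at h
    change t = U (cst c H.hc) (sym f g b) (W H u)
    revert hb hs h
    generalize (sym f g b) = k
    intro hb hs h
    unfold U at h
    cases h with
    | mk _ _ t' σ hσ h1 =>
      have h2 : σ = 1 := by
        rcases hs with hs | hs
        · have : Subsingleton (Fin (ar k)) := by rw [hs]; infer_instance
          exact Subsingleton.elim _ _
        · exact hσ hs
      subst h2
      unfold U
      congr 1
      funext j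
      have h3 := h1 j
      by_cases hj : (j : ℕ) + 1 = ar k
      · rw [if_pos hj]
        simp only [hj, if_true] at h3
        exact ih h3
      · rw [if_neg hj]
        simp only [hj, if_false] at h3
        exact eqv_cst h3

theorem gt_W {u : List Bool} {t : Tm ar} :
    Gt prec st (W H u) t ↔ ∃ w, t = W H w ∧ List.Sublist w u ∧ w ≠ u := by
  induction u generalizing t with
  | nil =>
    constructor
    · intro h
      exact absurd h (not_C_gt H t)
    · rintro ⟨w, -, h1, h2⟩
      exact absurd (List.sublist_nil.1 h1) h2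
  | cons b u ih =>
    change Gt prec st (U (cst c H.hc) (sym f g b) (W H u)) t ↔ _
    constructor
    · intro h
      rcases inv H (sym_st H b) (sym_m H b) h with rfl | h1 | h1 | ⟨y, rfl, h1⟩
      · exact ⟨[], rfl, List.nil_sublist _, by simp⟩
      · refine ⟨u, eqv_W H h1, List.sublist_cons_self _ _, ?_⟩
        intro h
        have := congrArg List.length h
        simp at this
      · obtain ⟨w, h2, h3, h4⟩ := ih.1 h1
        refine ⟨w, h2, h3.trans (List.sublist_cons_self _ _), ?_⟩
        rintro rfl
        have := h3.length_le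
        simp at this
      · obtain ⟨w, h2, h3, h4⟩ := ih.1 h1
        subst h2
        refine ⟨b :: w, rfl, List.cons_sublist_cons.2 h3, fun h => h4 (List.cons.inj h).2⟩
    · rintro ⟨w, rfl, h1, h2⟩
      cases h1 with
      | cons _ h1 =>
        by_cases h3 : w = u
        · subst h3
          exact U_gt_eqv (sym_ar H b) (Eqv.refl _)
        · exact U_gt_sub (sym_ar H b) (ih.2 ⟨w, rfl, h1, h3⟩)
      | cons_cons _ h1 =>
        exact U_gt_U (sym_ar H b) (ih.2 ⟨_, rfl, h1, fun h => h2 (by rw [h])⟩)

theorem W_ge (u : List Bool) : W H u = cst c H.hc ∨ Gt prec st (W H u) (cst c H.hc) := by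
  cases u with
  | nil => exact Or.inl rfl
  | cons b u => exact Or.inr ((gt_W H).2 ⟨[], rfl, List.nil_sublist _, by simp⟩)

end

/-- the terms which must not occur below a word -/
def bt (C : Tm ar) : F ⊕ (F × ℕ × F) → Tm ar
  | .inl k => .mk k fun _ => C
  | .inr p => .mk p.1 fun j => if (j : ℕ) = p.2.1 then .mk p.2.2 fun _ => C else C

/-- the list of these terms -/
def bl (ar : F → ℕ) (f g : F) (fs : List F) : List (F ⊕ (F × ℕ × F)) :=
  fs.map .inl ++ [f, g].flatMap fun k => (List.range (ar k - 1)).flatMap fun n =>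
    [f, g].map fun k' => .inr (k, n, k')

theorem mem_bl {fs : List F} {b : F ⊕ (F × ℕ × F)} : b ∈ bl ar f g fs ↔
    (∃ h ∈ fs, b = .inl h) ∨ ∃ (e e' : Bool) (n : ℕ), n < ar (sym f g e) - 1 ∧
      b = .inr (sym f g e, n, sym f g e') := by
  unfold bl
  rw [List.mem_append, List.mem_map, List.mem_flatMap]
  refine or_congr ⟨fun ⟨h, h1, h2⟩ => ⟨h, h1, h2.symm⟩, fun ⟨h, h1, h2⟩ => ⟨h, h1, h2.symm⟩⟩ ?_
  simp only [List.mem_flatMap, List.mem_map, List.mem_range, List.mem_cons, List.not_mem_nil,
    or_false]
  constructor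
  · rintro ⟨k, hk, n, hn, k', hk', rfl⟩
    have : ∀ k, k = f ∨ k = g → ∃ e, k = sym f g e := by
      rintro k (rfl | rfl)
      · exact ⟨true, rfl⟩
      · exact ⟨false, rfl⟩
    obtain ⟨e, rfl⟩ := this k hk
    obtain ⟨e', rfl⟩ := this k' hk'
    exact ⟨e, e', n, hn, rfl⟩
  · rintro ⟨e, e', n, hn, rfl⟩
    have : ∀ e, sym f g e = f ∨ sym f g e = g := by
      intro e
      cases e
      · exact Or.inr rfl
      · exact Or.inl rfl
    exact ⟨_, this e, n, hn, _, this e', rfl⟩

section
variable (H : Hyp ar prec st c f g)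
include H

theorem bt_ne_W {fs : List F} (hfs : ∀ h, h ∈ fs ↔ h ≠ c ∧ h ≠ f ∧ h ≠ g)
    {b : F ⊕ (F × ℕ × F)} (hb : b ∈ bl ar f g fs) (u : List Bool) :
    bt (cst c H.hc) b ≠ W H u := by
  rcases mem_bl.1 hb with ⟨h, hh, rfl⟩ | ⟨e, e', n, hn, rfl⟩
  · obtain ⟨k1, k2, k3⟩ := (hfs h).1 hh
    intro e
    cases u with
    | nil => exact k1 (head_inj e)
    | cons b u =>
      have h1 : h = sym f g b := head_inj e
      unfold sym at h1
      split_ifs at h1
      · exact k2 h1
      · exact k3 h1
  · intro e1
    cases u with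
    | nil =>
      have h1 : sym f g e = c := head_inj e1
      exact sym_ar H e (by rw [h1]; exact H.hc)
    | cons b u =>
      have h1 : sym f g e = sym f g b := head_inj e1
      have h2 := sym_inj H h1
      subst h2
      have e2 : Tm.mk (sym f g e) (fun j : Fin (ar (sym f g e)) => if (j : ℕ) = n then
          Tm.mk (sym f g e') (fun _ => cst c H.hc) else cst c H.hc) =
          Tm.mk (sym f g e) (fun j : Fin (ar (sym f g e)) =>
            if (j : ℕ) + 1 = ar (sym f g e) then W H u else cst c H.hc) := e1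
      have h3 := congrFun (eq_of_heq (Tm.mk.inj e2).2) ⟨n, by omega⟩
      have h4 : ¬ n + 1 = ar (sym f g e) := by omega
      simp only [h4, if_true, if_false] at h3
      have h5 : sym f g e' = c := head_inj h3
      exact sym_ar H e' (by rw [h5]; exact H.hc)

theorem word_or_bad {fs : List F} (hfs : ∀ h, h ∈ fs ↔ h ≠ c ∧ h ≠ f ∧ h ≠ g) (t : Tm ar) :
    (∃ w, t = W H w) ∨ ∃ b ∈ bl ar f g fs, Eqv st t (bt (cst c H.hc) b) ∨
      Gt prec st t (bt (cst c H.hc) b) := by
  classical
  induction t with
  | mk k s ih =>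
    by_cases hex : ∃ i, ∃ b ∈ bl ar f g fs, Eqv st (s i) (bt (cst c H.hc) b) ∨
      Gt prec st (s i) (bt (cst c H.hc) b)
    · obtain ⟨i, b, hb, h1⟩ := hex
      right
      refine ⟨b, hb, Or.inr ?_⟩
      rcases h1 with h1 | h1
      · exact Gt.eqv k s _ i h1
      · exact Gt.sub k s _ i h1
    have ih' : ∀ i, ∃ w, s i = W H w := fun i => (ih i).resolve_right fun h => hex ⟨i, h⟩
    have hge : ∀ i, s i = cst c H.hc ∨ Gt prec st (s i) (cst c H.hc) := by
      intro i
      obtain ⟨w, hw⟩ := ih' i
      rw [hw]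
      exact W_ge H w
    by_cases k1 : k = c
    · subst k1
      exact Or.inl ⟨[], mk_c _ s⟩
    have hor : ∀ {t r : Tm ar}, t = r ∨ Gt prec st t r → Eqv st t r ∨ Gt prec st t r := by
      rintro t r (h | h)
      · rw [h]
        exact Or.inl (Eqv.refl _)
      · exact Or.inr h
    by_cases k2 : ∃ b, k = sym f g b
    · obtain ⟨b, hb⟩ := k2
      subst hb
      by_cases hall : ∀ i : Fin (ar (sym f g b)), (i : ℕ) + 1 ≠ ar (sym f g b) →
          s i = cst c H.hc
      · left
        have hb := sym_ar H b
        obtain ⟨w, hw⟩ := ih' ⟨ar (sym f g b) - 1, by omega⟩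
        refine ⟨b :: w, ?_⟩
        change Tm.mk _ s = Tm.mk _ _
        congr 1
        funext j
        by_cases hj : (j : ℕ) + 1 = ar (sym f g b)
        · rw [if_pos hj, ← hw]
          congr 1
          exact Fin.ext (by change (j : ℕ) = ar (sym f g b) - 1; omega)
        · rw [if_neg hj]
          exact hall j hj
      · right
        push Not at hall
        obtain ⟨i, hi, hne⟩ := hall
        obtain ⟨w, hw⟩ := ih' i
        cases w with
        | nil => exact absurd hw hne
        | cons b' w =>
          have hi2 := i.2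
          refine ⟨.inr (sym f g b, i, sym f g b'), mem_bl.2 (Or.inr ⟨b, b', i, by omega, rfl⟩),
            hor ?_⟩
          change _ = Tm.mk _ _ ∨ Gt prec st _ (Tm.mk _ _)
          refine mono fun j => ?_
          by_cases hj : (j : ℕ) = i
          · rw [if_pos hj]
            have hj' : j = i := Fin.ext hj
            rw [hj', hw]
            change Tm.mk _ _ = _ ∨ Gt prec st (Tm.mk _ _) _
            refine mono fun l => ?_
            by_cases hl : (l : ℕ) + 1 = ar (sym f g b')
            · rw [if_pos hl]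
              exact W_ge H w
            · rw [if_neg hl]
              exact Or.inl rfl
          · rw [if_neg hj]
            exact hge j
    · right
      have k3 : k ≠ f := fun h => k2 ⟨true, h⟩
      have k4 : k ≠ g := fun h => k2 ⟨false, h⟩
      exact ⟨.inl k, mem_bl.2 (Or.inl ⟨k, (hfs k).2 ⟨k1, k3, k4⟩, rfl⟩), hor (mono hge)⟩

end

end Pool.Agent.H527R3.Rpo
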