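import Pool.Agent.H527R3.Rpo.Order

set_option autoImplicit false

/-!
# From systems of word constraints to systems of literals between terms
-/

namespace Pool.Agent.H527R3.Rpo

open scoped List

variable {F : Type} {ar : F → ℕ} {prec : F → F → Prop} {st : F → Bool} {c f g : F}

theorem sat_f {V : Type} {w : V → Tm ar} {h : F} {x : V} {l : Fin (ar h) → V} :
    Sat prec st w (.inl (h, x, List.ofFn l)) ↔ w x = .mk h fun i => w (l i) := by
  constructor
  · rintro ⟨t, h1, h2⟩
    rw [List.map_ofFn] at h2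
    have := List.ofFn_injective h2
    rw [h1, ← this]
    rfl
  · intro h1
    exact ⟨fun i => w (l i), h1, by rw [List.map_ofFn]; rfl⟩

/-- the list of arguments `C, …, C, y` of `h` -/
def ul {V : Type} (ar : F → ℕ) (h : F) (C y : V) : List V :=
  List.ofFn fun i : Fin (ar h) => if (i : ℕ) + 1 = ar h then y else C

theorem sat_u {V : Type} {w : V → Tm ar} {h : F} {C x y : V} :
    Sat prec st w (.inl (h, x, ul ar h C y)) ↔ w x = U (w C) h (w y) := by
  unfold ul U
  rw [sat_f]
  have : (fun i : Fin (ar h) => w (if (i : ℕ) + 1 = ar h then y else C)) =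
      fun i : Fin (ar h) => if (i : ℕ) + 1 = ar h then w y else w C := by
    funext i
    split_ifs <;> rfl
  rw [this]

theorem sat_c {V : Type} {w : V → Tm ar} (hc : ar c = 0) {x : V} :
    Sat prec st w (.inl (c, x, [])) ↔ w x = cst c hc := by
  constructor
  · rintro ⟨t, h1, -⟩
    rw [h1, mk_c hc]
  · intro h1
    exact ⟨_, h1, (List.eq_nil_of_length_eq_zero (by simp [hc])).symm⟩

/-- the variables of a word constraint -/
def WC.vars {V : Type} : WC V → List V
  | .nil x => [x]
  | .cons _ x y => [x, y]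
  | .sub x y => [x, y]
  | .nsub _ x y => [x, y]

/-- variables of the system of literals -/
abbrev TV (F V : Type) : Type := (V × Fin 4) ⊕ Option (F ⊕ (F × ℕ × F))

/-- the definition of the term `bt` -/
def dl {V : Type} (ar : F → ℕ) : F ⊕ (F × ℕ × F) → Con F (TV F V)
  | .inl k => .inl (k, .inr (some (.inl k)), List.ofFn fun _ : Fin (ar k) => .inr none)
  | .inr p => .inl (p.1, .inr (some (.inr p)), List.ofFn fun j : Fin (ar p.1) =>
      if (j : ℕ) = p.2.1 then .inr (some (.inl p.2.2)) else .inr none)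

/-- the literals which say that the value of `x` is a word -/
def vx {V : Type} (ar : F → ℕ) (f g : F) (fs : List F) (x : V) : List (Con F (TV F V)) :=
  .inl (f, .inl (x, 1), ul ar f (.inr none) (.inl (x, 0))) ::
    .inl (g, .inl (x, 2), ul ar g (.inr none) (.inl (x, 0))) ::
    (bl ar f g fs).map fun b => .inr (false, .inl (x, 1), .inr (some b))

/-- the translation of a word constraint -/
def tr {V : Type} (ar : F → ℕ) (c f g : F) : WC V → List (Con F (TV F V))
  | .nil x => [.inl (c, .inl (x, 0), [])]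
  | .cons b x y => [.inl (sym f g b, .inl (x, 0), ul ar (sym f g b) (.inr none) (.inl (y, 0)))]
  | .sub x y => [.inr (true, .inl (y, 1), .inl (x, 0)), .inr (true, .inl (y, 2), .inl (x, 0))]
  | .nsub b x y => [.inl (sym f g b, .inl (x, 0), ul ar (sym f g b) (.inr none) (.inl (x, 3))),
      .inr (false, .inl (y, if b = true then 2 else 1), .inl (x, 0))]

/-- the whole system -/
def sys {V : Type} (ar : F → ℕ) (c f g : F) (fs : List F) (vs : List V) (L : List (WC V)) :
    List (Con F (TV F V)) :=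
  .inl (c, .inr none, []) :: dl ar (.inl f) :: dl ar (.inl g) ::
    ((bl ar f g fs).map (dl ar) ++ (vs.flatMap (vx ar f g fs) ++ L.flatMap (tr ar c f g)))

theorem sys_sat {V : Type} {fs : List F} {vs : List V} {L : List (WC V)} {w : TV F V → Tm ar} :
    (∀ d ∈ sys ar c f g fs vs L, Sat prec st w d) ↔
      Sat prec st w (.inl (c, .inr none, [])) ∧
      Sat prec st w (dl ar (.inl f)) ∧ Sat prec st w (dl ar (.inl g)) ∧
      (∀ b ∈ bl ar f g fs, Sat prec st w (dl ar b)) ∧
      (∀ x ∈ vs, ∀ d ∈ vx ar f g fs x, Sat prec st w d) ∧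
      ∀ k ∈ L, ∀ d ∈ tr ar c f g k, Sat prec st w d := by
  unfold sys
  rw [List.forall_mem_cons, List.forall_mem_cons, List.forall_mem_cons, List.forall_mem_append,
    List.forall_mem_append, List.forall_mem_map]
  simp only [List.mem_flatMap, forall_exists_index, and_imp]
  constructor
  · rintro ⟨h1, h1', h1'', h2, h3, h4⟩
    exact ⟨h1, h1', h1'', h2, fun x hx d hd => h3 d x hx hd, fun k hk d hd => h4 d k hk hd⟩
  · rintro ⟨h1, h1', h1'', h2, h3, h4⟩
    exact ⟨h1, h1', h1'', h2, fun d x hx hd => h3 x hx d hd, fun d k hk hd => h4 k hk d hd⟩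

theorem sub_iff {x y : List Bool} : (x <+ true :: y ∧ x ≠ true :: y) ∧
    (x <+ false :: y ∧ x ≠ false :: y) ↔ x <+ y := by
  constructor
  · rintro ⟨⟨h1, h2⟩, h3, h4⟩
    cases x with
    | nil => exact List.nil_sublist _
    | cons b x =>
      cases b
      · cases h1 with
        | cons _ h => exact h
      · cases h3 with
        | cons _ h => exact h
  · intro h
    have hl := h.length_le
    refine ⟨⟨h.trans (List.sublist_cons_self _ _), ?_⟩, h.trans (List.sublist_cons_self _ _), ?_⟩
    · rintro rfl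
      simp at hl
    · rintro rfl
      simp at hl

theorem nsub_iff {b b' : Bool} (hb : b ≠ b') {x y t : List Bool} (hx : x = b :: t) :
    (x <+ b' :: y ∧ x ≠ b' :: y) ↔ x <+ y := by
  subst hx
  constructor
  · rintro ⟨h1, h2⟩
    cases h1 with
    | cons _ h => exact h
    | cons_cons _ h => exact absurd rfl hb
  · intro h
    exact ⟨h.trans (List.sublist_cons_self _ _), fun h => hb (List.cons.inj h).1⟩

section
variable (H : Hyp ar prec st c f g)
include H

/-- the literals `vx` say that `x` is a word -/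
theorem vx_sat {V : Type} {fs : List F} (hfs : ∀ h, h ∈ fs ↔ h ≠ c ∧ h ≠ f ∧ h ≠ g)
    {w : TV F V → Tm ar} (h0 : w (.inr none) = cst c H.hc)
    (hw : ∀ b ∈ bl ar f g fs, w (.inr (some b)) = bt (cst c H.hc) b) {x : V} :
    (∀ d ∈ vx ar f g fs x, Sat prec st w d) ↔ ∃ u, w (.inl (x, 0)) = W H u ∧
      w (.inl (x, 1)) = W H (true :: u) ∧ w (.inl (x, 2)) = W H (false :: u) := by
  unfold vx
  rw [List.forall_mem_cons, List.forall_mem_cons, List.forall_mem_map, sat_u, sat_u, h0]
  constructor
  · rintro ⟨h1, h2, h3⟩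
    rcases word_or_bad H hfs (w (.inl (x, 0))) with ⟨u, hu⟩ | ⟨b, hb, k4⟩
    · exact ⟨u, hu, by rw [h1, hu]; rfl, by rw [h2, hu]; rfl⟩
    · exfalso
      have h4 : ¬ Gt prec st (w (.inl (x, 1))) (w (.inr (some b))) := h3 b hb
      rw [h1, hw b hb] at h4
      rcases k4 with k4 | k4
      · exact h4 (U_gt_eqv H.hf k4)
      · exact h4 (U_gt_sub H.hf k4)
  · rintro ⟨u, h0, h1, h2⟩
    refine ⟨by rw [h1, h0]; rfl, by rw [h2, h0]; rfl, fun b hb => ?_⟩
    change ¬ Gt prec st (w (.inl (x, 1))) (w (.inr (some b)))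
    rw [h1, hw b hb, gt_W]
    rintro ⟨u', h3, -⟩
    exact bt_ne_W H hfs hb _ h3

theorem gt_W' {u u' : List Bool} : Gt prec st (W H u) (W H u') ↔ u' <+ u ∧ u' ≠ u := by
  rw [gt_W]
  constructor
  · rintro ⟨w, h1, h2, h3⟩
    have := W_inj H h1
    subst this
    exact ⟨h2, h3⟩
  · rintro ⟨h2, h3⟩
    exact ⟨u', rfl, h2, h3⟩

/-- the translation of a constraint is correct -/
theorem tr_sat {V : Type} {w : TV F V → Tm ar} {v : V → List Bool} {k : WC V}
    (hC : w (.inr none) = cst c H.hc)
    (h0 : ∀ x ∈ k.vars, w (.inl (x, 0)) = W H (v x))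
    (h1 : ∀ x ∈ k.vars, w (.inl (x, 1)) = W H (true :: v x))
    (h2 : ∀ x ∈ k.vars, w (.inl (x, 2)) = W H (false :: v x)) :
    ((∀ d ∈ tr ar c f g k, Sat prec st w d) → k.Sat v) ∧
    (k.Sat v → (∀ x ∈ k.vars, w (.inl (x, 3)) = W H (v x).tail) →
      ∀ d ∈ tr ar c f g k, Sat prec st w d) := by
  cases k with
  | nil x =>
    have e0 := h0 x (by simp [WC.vars])
    unfold tr WC.Sat
    rw [List.forall_mem_singleton, sat_c H.hc, e0]
    exact ⟨fun h => W_inj H (w := []) h, fun h _ => by rw [h]; rfl⟩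
  | cons b x y =>
    have e0 := h0 x (by simp [WC.vars])
    have e1 := h0 y (by simp [WC.vars])
    unfold tr WC.Sat
    rw [List.forall_mem_singleton, sat_u, e0, e1, hC]
    exact ⟨fun h => W_inj H (w := b :: v y) h, fun h _ => by rw [h]; rfl⟩
  | sub x y =>
    have e0 := h0 x (by simp [WC.vars])
    have e1 := h1 y (by simp [WC.vars])
    have e2 := h2 y (by simp [WC.vars])
    have key : (∀ d ∈ tr ar c f g (.sub x y), Sat prec st w d) ↔ v x <+ v y := by
      unfold tr
      rw [List.forall_mem_cons, List.forall_mem_singleton]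
      change Gt prec st _ _ ∧ Gt prec st _ _ ↔ _
      rw [e0, e1, e2, gt_W', gt_W']
      exact sub_iff
    exact ⟨key.1, fun h _ => key.2 h⟩
  | nsub b x y =>
    have e0 := h0 x (by simp [WC.vars])
    have e1 := h1 y (by simp [WC.vars])
    have e2 := h2 y (by simp [WC.vars])
    have key : ∀ t, v x = b :: t →
        (Sat prec st w (.inr (false, .inl (y, if b = true then 2 else 1), .inl (x, 0))) ↔
          ¬ v x <+ v y) := by
      intro t ht
      change ¬ Gt prec st _ _ ↔ _
      cases b with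
      | true =>
        change ¬ Gt prec st (w (.inl (y, 2))) _ ↔ _
        rw [e2, e0, gt_W', nsub_iff (by decide) ht]
      | false =>
        change ¬ Gt prec st (w (.inl (y, 1))) _ ↔ _
        rw [e1, e0, gt_W', nsub_iff (by decide) ht]
    unfold tr WC.Sat
    rw [List.forall_mem_cons, List.forall_mem_singleton, sat_u, e0, hC]
    constructor
    · rintro ⟨h3, h4⟩
      obtain ⟨t, ht⟩ : ∃ t, v x = b :: t := by
        cases hv : v x with
        | nil =>
          exfalso
          rw [hv] at h3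
          exact U_ne_cst H (sym_ar H b) h3.symm
        | cons b' t =>
          rw [hv] at h3
          have h5 := (U_inj (sym_ar H b') h3).1
          exact ⟨t, by rw [sym_inj H h5]⟩
      exact ⟨⟨t, ht⟩, (key t ht).1 h4⟩
    · rintro ⟨⟨t, ht⟩, h4⟩ h3
      refine ⟨?_, (key t ht).2 h4⟩
      rw [h3 x (by simp [WC.vars]), ht]
      rfl

/-- the system has a solution with `x0 = u` iff the system of word constraints has one -/
theorem sys_iff {V : Type} {fs : List F} (hfs : ∀ h, h ∈ fs ↔ h ≠ c ∧ h ≠ f ∧ h ≠ g)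
    {vs : List V} {L : List (WC V)} (hL : ∀ k ∈ L, ∀ x ∈ k.vars, x ∈ vs) {x0 : V}
    (hx0 : x0 ∈ vs) (u : List Bool) :
    (∃ v : V → List Bool, v x0 = u ∧ ∀ k ∈ L, k.Sat v) ↔
      ∃ w : TV F V → Tm ar, w (.inl (x0, 0)) = W H u ∧
        ∀ d ∈ sys ar c f g fs vs L, Sat prec st w d := by
  classical
  constructor
  · rintro ⟨v, h0, hv⟩
    obtain ⟨w, hw⟩ : ∃ w : TV F V → Tm ar, w = Sum.elim (fun p => (![W H (v p.1),
      W H (true :: v p.1), W H (false :: v p.1), W H (v p.1).tail] : Fin 4 → Tm ar) p.2)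
      (fun o => o.elim (cst c H.hc) fun b => bt (cst c H.hc) b) := ⟨_, rfl⟩
    have w0 : ∀ x, w (.inl (x, 0)) = W H (v x) := by rw [hw]; exact fun _ => rfl
    have w1 : ∀ x, w (.inl (x, 1)) = W H (true :: v x) := by rw [hw]; exact fun _ => rfl
    have w2 : ∀ x, w (.inl (x, 2)) = W H (false :: v x) := by rw [hw]; exact fun _ => rfl
    have w3 : ∀ x, w (.inl (x, 3)) = W H (v x).tail := by rw [hw]; exact fun _ => rfl
    have wC : w (.inr none) = cst c H.hc := by rw [hw]; rfl
    have wb : ∀ b, w (.inr (some b)) = bt (cst c H.hc) b := by rw [hw]; exact fun _ => rfl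
    have wd : ∀ b, Sat prec st w (dl ar b) := by
      intro b
      rcases b with k | p
      · unfold dl
        rw [sat_f, wb, wC]
        rfl
      · unfold dl
        rw [sat_f, wb]
        change Tm.mk p.1 (fun j : Fin (ar p.1) => if (j : ℕ) = p.2.1 then
          Tm.mk p.2.2 (fun _ => cst c H.hc) else cst c H.hc) = Tm.mk p.1 _
        congr 1
        funext j
        by_cases hj : (j : ℕ) = p.2.1
        · simp only [hj, if_true]
          rw [wb]
          rfl
        · simp only [hj, if_false]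
          rw [wC]
    refine ⟨w, by rw [w0, h0], ?_⟩
    rw [sys_sat]
    refine ⟨(sat_c H.hc).2 wC, wd _, wd _, fun b _ => wd b, fun x _ => ?_, fun k hk => ?_⟩
    · rw [vx_sat H hfs wC fun b _ => wb b]
      exact ⟨v x, w0 x, w1 x, w2 x⟩
    · exact (tr_sat H (v := v) wC (fun x _ => w0 x) (fun x _ => w1 x) (fun x _ => w2 x)).2 (hv k hk)
        fun x _ => w3 x
  · rintro ⟨w, h0, hw⟩
    rw [sys_sat] at hw
    obtain ⟨h1, h1', h1'', h2, h3, h4⟩ := hw
    rw [sat_c H.hc] at h1
    have hs : ∀ e, w (.inr (some (.inl (sym f g e)))) = .mk (sym f g e) fun _ => cst c H.hc := by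
      intro e
      cases e
      · unfold dl at h1''
        rw [sat_f, h1] at h1''
        exact h1''
      · unfold dl at h1'
        rw [sat_f, h1] at h1'
        exact h1'
    have h2' : ∀ b ∈ bl ar f g fs, w (.inr (some b)) = bt (cst c H.hc) b := by
      intro b hb
      have h5 := h2 b hb
      rcases mem_bl.1 hb with ⟨h, hh, rfl⟩ | ⟨e, e', n, hn, rfl⟩
      · unfold dl at h5
        rw [sat_f, h1] at h5
        exact h5
      · unfold dl at h5
        rw [sat_f] at h5
        rw [h5]
        change Tm.mk (sym f g e) _ = Tm.mk (sym f g e) (fun j : Fin (ar (sym f g e)) =>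
          if (j : ℕ) = n then Tm.mk (sym f g e') (fun _ => cst c H.hc) else cst c H.hc)
        congr 1
        funext j
        by_cases hj : (j : ℕ) = n
        · simp only [hj, if_true]
          rw [hs e']
        · simp only [hj, if_false]
          rw [h1]
    have h3' : ∀ x, ∃ u, x ∈ vs → w (.inl (x, 0)) = W H u ∧
      w (.inl (x, 1)) = W H (true :: u) ∧ w (.inl (x, 2)) = W H (false :: u) := by
      intro x
      by_cases hx : x ∈ vs
      · obtain ⟨u, hu⟩ := (vx_sat H hfs h1 h2').1 (h3 x hx)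
        exact ⟨u, fun _ => hu⟩
      · exact ⟨[], fun h => absurd h hx⟩
    choose v hv using h3'
    refine ⟨v, W_inj H ((hv x0 hx0).1.symm.trans h0), fun k hk => ?_⟩
    exact (tr_sat H (v := v) h1 (fun x hx => (hv x (hL k hk x hx)).1)
      (fun x hx => (hv x (hL k hk x hx)).2.1) (fun x hx => (hv x (hL k hk x hx)).2.2)).1 (h4 k hk)

end

end Pool.Agent.H527R3.Rpo
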