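import Mathlib

set_option autoImplicit false

/-!
# Words over two letters and the subword order: block structure
-/

namespace Pool.Agent.H527R3.Rpo

open List

/-- the word `a^n` -/
abbrev A (n : ℕ) : List Bool := List.replicate n true
/-- the word `b^n` -/
abbrev B (n : ℕ) : List Bool := List.replicate n false

/-- the word with the given blocks of `a`s, each but the last followed by `b` -/
def enc : List ℕ → ℕ → List Bool
  | [], r => A r
  | x :: l, r => A x ++ false :: enc l r

theorem exists_enc (w : List Bool) : ∃ l r, w = enc l r := by
  induction w with
  | nil => exact ⟨[], 0, rfl⟩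
  | cons b w ih =>
    obtain ⟨l, r, rfl⟩ := ih
    cases b with
    | false => exact ⟨0 :: l, r, rfl⟩
    | true =>
      cases l with
      | nil => exact ⟨[], r + 1, rfl⟩
      | cons x l => exact ⟨(x + 1) :: l, r, rfl⟩

theorem count_false_enc (l : List ℕ) (r : ℕ) : (enc l r).count false = l.length := by
  induction l with
  | nil => simp [enc, List.count_replicate]
  | cons x l ih => simp [enc, List.count_append, List.count_replicate, ih]

theorem count_true_enc (l : List ℕ) (r : ℕ) : (enc l r).count true = l.sum + r := by
  induction l with
  | nil => simp [enc, List.count_replicate]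
  | cons x l ih => simp [enc, List.count_append, List.count_replicate, ih]; omega

theorem key {E E' : List Bool} (h : E.count false = E'.count false) : ∀ (x' x : ℕ),
    (A x ++ false :: E) <+ (A x' ++ false :: E') → x ≤ x' ∧ E <+ E' := by
  intro x'
  induction x' with
  | zero =>
    intro x hx
    cases x with
    | zero =>
      simp only [A, List.replicate_zero, List.nil_append] at hx
      exact ⟨le_rfl, List.cons_sublist_cons.1 hx⟩
    | succ x =>
      exfalso
      simp only [A, List.replicate_zero, List.nil_append, List.replicate_succ,
        List.cons_append] at hx
      cases hx with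
      | cons _ hx =>
        have := hx.count_le false
        simp [List.count_append, List.count_replicate] at this
        omega
  | succ x' ih =>
    intro x hx
    cases x with
    | zero =>
      simp only [A, List.replicate_zero, List.nil_append, List.replicate_succ,
        List.cons_append] at hx
      cases hx with
      | cons _ hx => exact ⟨by omega, (ih 0 hx).2⟩
    | succ x =>
      simp only [A, List.replicate_succ, List.cons_append] at hx
      have := ih x (List.cons_sublist_cons.1 hx)
      exact ⟨by omega, this.2⟩

theorem sub_enc {l l' : List ℕ} {r r' : ℕ} (hl : l.length = l'.length) :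
    (enc l r <+ enc l' r') ↔ List.Forall₂ (· ≤ ·) l l' ∧ r ≤ r' := by
  induction l generalizing l' with
  | nil =>
    cases l' with
    | nil => simp [enc, List.replicate_sublist_replicate]
    | cons _ _ => simp at hl
  | cons x l ih =>
    cases l' with
    | nil => simp at hl
    | cons x' l' =>
      have hl' : l.length = l'.length := by simpa using hl
      constructor
      · intro h
        have h1 := key (by rw [count_false_enc, count_false_enc, hl']) x' x h
        have h2 := (ih hl').1 h1.2
        exact ⟨List.Forall₂.cons h1.1 h2.1, h2.2⟩
      · rintro ⟨h1, h2⟩
        cases h1 with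
        | cons h3 h4 =>
          exact List.Sublist.append ((List.replicate_sublist_replicate true).2 h3)
            (List.cons_sublist_cons.2 ((ih hl').2 ⟨h4, h2⟩))

theorem enc_append (l : List ℕ) (r : ℕ) : enc l r ++ [false] = enc (l ++ [r]) 0 := by
  induction l with
  | nil => simp [enc]
  | cons x l ih => simp [enc, ih]

theorem enc_append_replicate (l : List ℕ) (n : ℕ) : enc l 0 ++ B n = enc (l ++ replicate n 0) 0 := by
  induction n generalizing l with
  | zero => simp [B]
  | succ n ih =>
    have h : B (n + 1) = [false] ++ B n := rfl
    rw [h, ← List.append_assoc, enc_append, ih, List.replicate_succ]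
    simp

theorem A_append_B (i n : ℕ) : A i ++ B (n + 1) = enc (i :: replicate n 0) 0 := by
  have h : B (n + 1) = [false] ++ B n := rfl
  have h2 : A i ++ [false] = enc [i] 0 := by simp [enc]
  rw [h, ← List.append_assoc, h2, enc_append_replicate]
  rfl

theorem eq_A {u : List Bool} (h : ¬ ([false] <+ u)) : u = A u.length := by
  rw [List.singleton_sublist] at h
  refine List.eq_replicate_iff.2 ⟨rfl, fun b hb => ?_⟩
  cases b with
  | true => rfl
  | false => exact absurd hb h

theorem eq_B {u : List Bool} (h : ¬ ([true] <+ u)) : u = B u.length := by
  rw [List.singleton_sublist] at h
  refine List.eq_replicate_iff.2 ⟨rfl, fun b hb => ?_⟩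
  cases b with
  | false => rfl
  | true => exact absurd hb h

theorem A_sub {n : ℕ} {x : List Bool} : (A n <+ x) ↔ n ≤ x.count true :=
  List.replicate_sublist_iff

theorem B_sub {n : ℕ} {x : List Bool} : (B n <+ x) ↔ n ≤ x.count false :=
  List.replicate_sublist_iff

/-- words without subword `ba` -/
theorem eq_AB {p : List Bool} (h : ¬ ([false, true] <+ p)) :
    p = A (p.count true) ++ B (p.count false) := by
  induction p with
  | nil => simp
  | cons b p ih =>
    have ih' := ih (fun h' => h (h'.cons _))
    cases b with
    | true =>
      have e1 : (true :: p).count true = p.count true + 1 := by simp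
      have e2 : (true :: p).count false = p.count false := by simp
      rw [e1, e2]
      conv_lhs => rw [ih']
      rfl
    | false =>
      have h1 : ¬ ([true] <+ p) := fun h' => h (List.cons_sublist_cons.2 h')
      have h2 := eq_B h1
      have h3 : p.count true = 0 := by
        rw [List.count_eq_zero]
        intro hh
        exact h1 (List.singleton_sublist.2 hh)
      have e1 : (false :: p).count true = 0 := by simp [h3]
      have e2 : (false :: p).count false = p.length + 1 := by
        rw [List.count_cons_self]
        congr 1
        conv_lhs => rw [h2]
        simp
      rw [e1, e2]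
      conv_lhs => rw [h2]
      rfl

theorem AB_sub_count {i j : ℕ} {x : List Bool} (h : (A i ++ B j) <+ x) :
    i ≤ x.count true ∧ j ≤ x.count false := by
  have h1 := h.count_le true
  have h2 := h.count_le false
  simp [List.count_append, List.count_replicate] at h1 h2
  exact ⟨h1, h2⟩

theorem not_BA_AB (i j : ℕ) : ¬ ([false, true] <+ (A i ++ B j)) := by
  induction i with
  | zero =>
    simp only [A, List.replicate_zero, List.nil_append]
    intro h
    have := h.count_le true
    simp [List.count_replicate] at this
  | succ i ih =>
    intro h
    have h' : [false, true] <+ (true :: (A i ++ B j)) := h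
    cases h' with
    | cons _ h' => exact ih h'

end Pool.Agent.H527R3.Rpo
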